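import Pool.Agent.H9.BX.Mono

/-!
# The maximal volume of the angle structures for `A = 1` and `A = 2`
-/

set_option autoImplicit false

namespace Pool.Agent.H9.BX

open Filter Finset Pool.Agent.W709.VC Pool.Agent.W719.BX
open scoped Real Topology

lemma lob_third : 3 * GapVol.lob (π / 3) = 2 * GapVol.lob (π / 6) := by
  have h := Pool.Agent.W305.VC.lob_two_mul (π / 6)
  rw [show 2 * (π / 6) = π / 3 by ring, show π / 6 + π / 2 = -(π / 3) + π by ring,
    EvenVol.LobIneq.lob_per, EvenVol.LobIneq.lob_neg] at h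
  linarith

lemma one_dvd' (i : ℤ) : ((1 : ℕ) : ℤ) ∣ i := by simp

/-- `A = 1` -/
theorem great1 (n : ℕ) : IsGreatest {W : ℝ | ∃ w, bAngleN 1 n w ∧ bvolN 1 n w = W}
    (n * (8 * GapVol.lob (π / 6))) := by
  have hpi := Real.pi_pos
  have h3 := lob_third
  constructor
  · refine ⟨fun _ => 2 * π / 3, ⟨fun _ => rfl, fun i => ?_⟩, ?_⟩
    · unfold bX bY bZ
      rw [if_pos (one_dvd' i), if_pos (one_dvd' i)]
      refine ⟨by linarith, by linarith, by linarith⟩
    · unfold bvolN
      have h : ∀ i ∈ range (2 * 1 * n), 2 * (GapVol.lob (bX 1 (fun _ => 2 * π / 3) i) +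
          GapVol.lob (bY 1 (fun _ => 2 * π / 3) i) + GapVol.lob (bZ (fun _ => 2 * π / 3) i)) =
          4 * GapVol.lob (π / 6) := by
        intro i _
        unfold bX bY bZ
        rw [if_pos (one_dvd' i), if_pos (one_dvd' i)]
        have e1 : (2 * π / 3 + 2 * π / 3 - 2 * π / 3) / 2 = π / 3 := by ring
        have e2 : (-(2 * π / 3) + 2 * π / 3 + 2 * π / 3) / 2 = π / 3 := by ring
        have e3 : π - 2 * π / 3 = π / 3 := by ring
        rw [e1, e2, e3]
        linarith
      rw [sum_congr rfl h, sum_const, card_range, nsmul_eq_mul]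
      push_cast
      ring
  · rintro V ⟨w, ⟨hw, hpos⟩, rfl⟩
    unfold bvolN
    have h : ∀ i ∈ range (2 * 1 * n), 2 * (GapVol.lob (bX 1 w i) +
        GapVol.lob (bY 1 w i) + GapVol.lob (bZ w i)) ≤ 4 * GapVol.lob (π / 6) := by
      intro i _
      obtain ⟨p1, p2, p3⟩ := hpos i
      have h6 := Pool.Agent.W120.VC.tet (π / 3) (π / 3) (π / 3) _ _ _ (by positivity)
        (by positivity) (by positivity) (by ring) p1.le p2.le p3.le (sum_xyz 1 w i)
      have h7 := sum_xyz 1 w i
      have h8 : (bX 1 w i - π / 3) * Real.log (2 * Real.sin (π / 3)) +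
          (bY 1 w i - π / 3) * Real.log (2 * Real.sin (π / 3)) +
          (bZ w i - π / 3) * Real.log (2 * Real.sin (π / 3)) = 0 := by
        rw [← add_mul, ← add_mul]
        have : bX 1 w i - π / 3 + (bY 1 w i - π / 3) + (bZ w i - π / 3) = 0 := by linarith
        rw [this, zero_mul]
      linarith
    refine (Finset.sum_le_sum h).trans (le_of_eq ?_)
    rw [sum_const, card_range, nsmul_eq_mul]
    push_cast
    ring

lemma log_two_sin_half : Real.log (2 * Real.sin (π / 2)) = Real.log 2 := by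
  rw [Real.sin_pi_div_two, mul_one]

lemma log_two_sin_quarter : Real.log (2 * Real.sin (π / 4)) = Real.log 2 / 2 := by
  rw [Real.sin_pi_div_four, show 2 * (√2 / 2) = √2 by ring, Real.log_sqrt (by norm_num)]

lemma dvd_even (j : ℕ) : ((2 : ℕ) : ℤ) ∣ ((2 * j : ℕ) : ℤ) := by
  push_cast
  exact Dvd.intro _ rfl

lemma dvd_odd (j : ℕ) : ¬ ((2 : ℕ) : ℤ) ∣ ((2 * j + 1 : ℕ) : ℤ) := by
  push_cast
  omega

/-- `A = 2` -/
theorem great2 (n : ℕ) : IsGreatest {W : ℝ | ∃ w, bAngleN 2 n w ∧ bvolN 2 n w = W}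
    (n * (16 * GapVol.lob (π / 4))) := by
  have hpi := Real.pi_pos
  have hlh : GapVol.lob (π / 2) = 0 := GapVol.lob_half
  constructor
  · set w : ℤ → ℝ := fun i => if ((2 : ℕ) : ℤ) ∣ i then π / 2 else 3 * π / 4 with hw
    have w1 : ∀ i : ℤ, ((2 : ℕ) : ℤ) ∣ i → w i = π / 2 ∧ w (i - 1) = 3 * π / 4 ∧
        w (i + 1) = 3 * π / 4 := by
      intro i hi
      refine ⟨if_pos hi, if_neg ?_, if_neg ?_⟩ <;> omega
    have w2 : ∀ i : ℤ, ¬ ((2 : ℕ) : ℤ) ∣ i → w i = 3 * π / 4 ∧ w (i - 1) = π / 2 ∧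
        w (i + 1) = π / 2 := by
      intro i hi
      refine ⟨if_neg hi, if_pos ?_, if_pos ?_⟩ <;> omega
    have hX : ∀ i : ℤ, (((2 : ℕ) : ℤ) ∣ i → bX 2 w i = π / 4 ∧ bY 2 w i = π / 4 ∧
        bZ w i = π / 2) ∧ (¬ ((2 : ℕ) : ℤ) ∣ i → bX 2 w i = π / 2 ∧ bY 2 w i = π / 4 ∧
        bZ w i = π / 4) := by
      intro i
      constructor
      · intro hi
        obtain ⟨a1, a2, a3⟩ := w1 i hi
        unfold bX bY bZ
        rw [if_pos hi, if_pos hi, a1, a2, a3]
        refine ⟨by ring, by ring, by ring⟩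
      · intro hi
        obtain ⟨a1, a2, a3⟩ := w2 i hi
        unfold bX bY bZ
        rw [if_neg hi, if_neg hi, a1, a2, a3]
        refine ⟨by ring, by ring, by ring⟩
    refine ⟨w, ⟨fun i => ?_, fun i => ?_⟩, ?_⟩
    · by_cases hi : ((2 : ℕ) : ℤ) ∣ i
      · rw [(w1 i hi).1]
        apply (w1 _ _).1
        push_cast at hi ⊢
        omega
      · rw [(w2 i hi).1]
        apply (w2 _ _).1
        push_cast at hi ⊢
        omega
    · by_cases hi : ((2 : ℕ) : ℤ) ∣ i
      · obtain ⟨a1, a2, a3⟩ := (hX i).1 hi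
        rw [a1, a2, a3]
        refine ⟨by positivity, by positivity, by positivity⟩
      · obtain ⟨a1, a2, a3⟩ := (hX i).2 hi
        rw [a1, a2, a3]
        refine ⟨by positivity, by positivity, by positivity⟩
    · unfold bvolN
      have h : ∀ i ∈ range (2 * 2 * n), 2 * (GapVol.lob (bX 2 w i) +
          GapVol.lob (bY 2 w i) + GapVol.lob (bZ w i)) = 4 * GapVol.lob (π / 4) := by
        intro i _
        by_cases hi : ((2 : ℕ) : ℤ) ∣ (i : ℤ)
        · obtain ⟨a1, a2, a3⟩ := (hX i).1 hi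
          rw [a1, a2, a3, hlh]
          ring
        · obtain ⟨a1, a2, a3⟩ := (hX i).2 hi
          rw [a1, a2, a3, hlh]
          ring
      rw [sum_congr rfl h, sum_const, card_range, nsmul_eq_mul]
      push_cast
      ring
  · rintro V ⟨w, ⟨hw, hpos⟩, rfl⟩
    have hE : ∀ i : ℤ, ((2 : ℕ) : ℤ) ∣ i → 2 * (GapVol.lob (bX 2 w i) +
        GapVol.lob (bY 2 w i) + GapVol.lob (bZ w i)) ≤ 4 * GapVol.lob (π / 4) +
        Real.log 2 * (w i - π / 2) := by
      intro i hi
      obtain ⟨p1, p2, p3⟩ := hpos i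
      have h6 := Pool.Agent.W120.VC.tet (π / 4) (π / 4) (π / 2) _ _ _ (by positivity)
        (by positivity) (by positivity) (by ring) p1.le p2.le p3.le (sum_xyz 2 w i)
      rw [log_two_sin_half, log_two_sin_quarter, hlh] at h6
      have h7 := sum_xyz 2 w i
      have h8 : bZ w i = π - w i := rfl
      have h9 : (bX 2 w i - π / 4) * (Real.log 2 / 2) + (bY 2 w i - π / 4) * (Real.log 2 / 2) =
          (π / 2 - bZ w i) * (Real.log 2 / 2) := by
        rw [← add_mul]
        congr 1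
        linarith
      rw [h8] at h6 h9 ⊢
      linarith
    have hO : ∀ i : ℤ, ¬ ((2 : ℕ) : ℤ) ∣ i → 2 * (GapVol.lob (bX 2 w i) +
        GapVol.lob (bY 2 w i) + GapVol.lob (bZ w i)) ≤ 4 * GapVol.lob (π / 4) -
        Real.log 2 * ((w (i - 1) + w (i + 1)) / 2 - π / 2) := by
      intro i hi
      obtain ⟨p1, p2, p3⟩ := hpos i
      have h6 := Pool.Agent.W120.VC.tet (π / 2) (π / 4) (π / 4) _ _ _ (by positivity)
        (by positivity) (by positivity) (by ring) p1.le p2.le p3.le (sum_xyz 2 w i)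
      rw [log_two_sin_half, log_two_sin_quarter, hlh] at h6
      have h7 := sum_xyz 2 w i
      have h8 : bX 2 w i = (w (i - 1) + w (i + 1)) / 2 := by
        unfold bX
        rw [if_neg hi]
      have h9 : (bY 2 w i - π / 4) * (Real.log 2 / 2) + (bZ w i - π / 4) * (Real.log 2 / 2) =
          (π / 2 - bX 2 w i) * (Real.log 2 / 2) := by
        rw [← add_mul]
        congr 1
        linarith
      rw [h8] at h6 h9 ⊢
      linarith
    have hind : ∀ k : ℕ, ∑ i ∈ range (2 * k), 2 * (GapVol.lob (bX 2 w i) +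
        GapVol.lob (bY 2 w i) + GapVol.lob (bZ w i)) ≤ 8 * k * GapVol.lob (π / 4) +
        Real.log 2 / 2 * (w 0 - w (2 * k)) := by
      intro k
      induction k with
      | zero => simp
      | succ k ih =>
        rw [show 2 * (k + 1) = 2 * k + 1 + 1 by ring, sum_range_succ, sum_range_succ]
        have h1 := hE _ (dvd_even k)
        have h2 := hO _ (dvd_odd k)
        have e1 : (((2 * k + 1 : ℕ) : ℤ) - 1) = 2 * k := by push_cast; ring
        have e2 : (((2 * k + 1 : ℕ) : ℤ) + 1) = 2 * (k + 1 : ℕ) := by push_cast; ring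
        have e3 : (((2 * k : ℕ) : ℤ)) = 2 * k := by push_cast; ring
        rw [e1, e2] at h2
        rw [e3] at h1
        rw [e3]
        push_cast at ih h1 h2 ⊢
        linarith
    have h := hind (2 * n)
    have e : w (2 * ((2 * n : ℕ) : ℤ)) = w 0 := by
      have := hw 0
      rw [zero_add] at this
      rw [← this]
      congr 1
      push_cast
      ring
    rw [e, sub_self, mul_zero, add_zero] at h
    unfold bvolN
    rw [show 2 * 2 * n = 2 * (2 * n) by ring]
    refine h.trans (le_of_eq ?_)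
    push_cast
    ring

end Pool.Agent.H9.BX
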