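import Pool.Agent.H9.BX.Ang12
import Pool.Graph.R_pool_sql_team_seeded_64922ed1.X132.AXg
import Pool.Graph.R_pool_sql_team_seeded_64922ed1.X132.AXh

/-!
# The growth of the traces of `(s_1^A s_2^{-A})^n` for all `A ≥ 1`
-/

set_option autoImplicit false

namespace Pool.Agent.H9.BX

open Filter Finset Pool.Agent.W709.VC Pool.Agent.W719.BX Pool.Agent.W402.VC
open scoped Real Topology
open Pool.Agent.W715.VC (rep3 wpow dual growth_pow)
open Pool.Agent.X132.AX (bl)

lemma lob_lt : GapVol.lob (π / 4) < GapVol.lob (π / 6) := by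
  have hpi := Real.pi_pos
  have h : StrictAntiOn GapVol.lob (Set.Icc (π / 6) (π / 4)) := by
    apply strictAntiOn_of_deriv_neg (convex_Icc _ _)
    · intro t ht
      exact (lob_hasDeriv (by linarith [ht.1])
        (by linarith [ht.2])).continuousAt.continuousWithinAt
    · intro t ht
      rw [interior_Icc] at ht
      rw [(lob_hasDeriv (by linarith [ht.1]) (by linarith [ht.2])).deriv]
      have h1 : Real.sin (π / 6) < Real.sin t :=
        Real.sin_lt_sin_of_lt_of_le_pi_div_two (by linarith) (by linarith [ht.2]) ht.1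
      rw [Real.sin_pi_div_six] at h1
      have h2 : 0 < Real.log (2 * Real.sin t) := Real.log_pos (by linarith)
      linarith
  exact h ⟨le_rfl, by linarith⟩ ⟨by linarith, le_rfl⟩ (by linarith)

lemma lob4_ge : π / 8 * Real.log 2 ≤ GapVol.lob (π / 4) := by
  have hpi := Real.pi_pos
  have h := Convex.image_sub_le_mul_sub_of_deriv_le (convex_Icc (π / 4) (π / 2))
    (f := GapVol.lob) (C := -(Real.log 2 / 2)) ?_ ?_ ?_ (π / 4) ⟨le_rfl, by linarith⟩ (π / 2)
    ⟨by linarith, le_rfl⟩ (by linarith)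
  · have e : -(Real.log 2 / 2) * (π / 2 - π / 4) = -(π / 8 * Real.log 2) := by ring
    rw [e, GapVol.lob_half] at h
    linarith
  · intro t ht
    exact (lob_hasDeriv (by linarith [ht.1]) (by linarith [ht.2])).continuousAt.continuousWithinAt
  · intro t ht
    rw [interior_Icc] at ht
    exact (lob_hasDeriv (by linarith [ht.1])
      (by linarith [ht.2])).differentiableAt.differentiableWithinAt
  · intro t ht
    rw [interior_Icc] at ht
    rw [(lob_hasDeriv (by linarith [ht.1]) (by linarith [ht.2])).deriv]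
    have h1 : Real.sin (π / 4) ≤ Real.sin t :=
      Real.sin_le_sin_of_le_of_le_pi_div_two (by linarith) ht.2.le ht.1.le
    rw [Real.sin_pi_div_four] at h1
    have h2 : Real.log √2 ≤ Real.log (2 * Real.sin t) :=
      Real.log_le_log (by positivity) (by linarith)
    rw [Real.log_sqrt (by norm_num)] at h2
    linarith

lemma u12 : 8 * GapVol.lob (π / 6) < 16 * GapVol.lob (π / 4) := by
  have h1 := lob_diff
  have h2 := lob4_ge
  have h3 : 0 < π * Real.log 2 := mul_pos Real.pi_pos (Real.log_pos (by norm_num))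
  linarith

/-- the data for `A ≥ 3` -/
def Big (A : ℕ) (V : ℝ) : Prop :=
  (∃ α b η : ℝ, Crit2 ((A : ℝ) / 2) α b η ∧ b < π / 2 ∧ V = 2 * hp ((A : ℝ) / 2) α b η) ∧
  16 * GapVol.lob (π / 6) ≤ V ∧
  (∀ n : ℕ, IsGreatest {W : ℝ | ∃ w, bAngleN A n w ∧ bvolN A n w = W} (n * V)) ∧
  Tendsto (fun N : ℕ => 2 * π / N * Real.log ‖(rep3 N (bl A true)).trace‖) atTop (𝓝 V)

theorem big {A : ℕ} (hA : 3 ≤ A) : ∃ V, Big A V := by
  rcases hA.eq_or_lt with h3 | h4
  · subst h3
    obtain ⟨α, b, η, hc⟩ := crit3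
    have hC : Crit2 (((3 : ℕ) : ℝ) / 2) α b η := by
      rw [three_half]
      exact hc.toC
    refine ⟨2 * hp (3 / 2) α b η, ⟨α, b, η, hC, hc.hb2, by rw [three_half]⟩, hc.bd.1,
      fun n => ?_, ?_⟩
    · have h1 := (hb_of_crit Pool.Agent.W214.BX.alg2 le_rfl hc.hb2 hC).greatestN
        Pool.Agent.W120.VC.tet n
      rwa [geo_value Pool.Agent.W214.BX.alg2 Pool.Agent.W389.BX.tel le_rfl hc.hb2 hC,
        three_half] at h1
    · rw [Pool.Agent.X132.AX.bl_eq]
      exact hc.trace_growth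
  · have hA4 : 4 ≤ A := h4
    have hA2 : (2 : ℝ) ≤ (A : ℝ) / 2 := by
      have : (4 : ℝ) ≤ A := by exact_mod_cast hA4
      linarith
    obtain ⟨α, b, η, hC⟩ := W349.BX.crit ((A : ℝ) / 2) hA2
    have hb := Pool.Agent.W557.BX.b_lt hA4 hC
    refine ⟨2 * hp ((A : ℝ) / 2) α b η, ⟨α, b, η, hC, hb, rfl⟩, ?_, fun n => ?_, ?_⟩
    · have h1 := (s_bnd ((A : ℝ) / 2) α b η hA2 hC).1
      have h2 := Pool.Agent.X132.AX.lob6_pos
      linarith
    · have h1 := (Pool.Agent.W719.BX.hb_of_crit Pool.Agent.W214.BX.alg2 hA4 hC).greatestN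
        Pool.Agent.W120.VC.tet n
      rwa [Pool.Agent.W719.BX.geo_value Pool.Agent.W214.BX.alg2 Pool.Agent.W389.BX.tel hA4 hC]
        at h1
    · rw [Pool.Agent.X132.AX.bl_eq]
      exact trace_growth hA4 hC

/-- **the growth rates of the traces of `(s_1^A s_2^{-A})^n`** -/
theorem base : ∃ U : ℕ → ℝ, U 1 = 8 * GapVol.lob (π / 6) ∧ U 2 = 16 * GapVol.lob (π / 4) ∧
    16 * GapVol.lob (π / 6) ≤ U 3 ∧
    (∀ A B : ℕ, 1 ≤ A → A < B → U A < U B) ∧
    (∀ A : ℕ, 1 ≤ A → 0 < U A) ∧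
    (∀ A n : ℕ, 1 ≤ A → IsGreatest {W : ℝ | ∃ w, bAngleN A n w ∧ bvolN A n w = W} (n * U A)) ∧
    ∀ A n : ℕ, 1 ≤ A → 1 ≤ n → Tendsto (fun N : ℕ => 2 * π / N *
      Real.log ‖(rep3 N (wpow (bl A true) n)).trace‖) atTop (𝓝 (n * U A)) := by
  classical
  have hex : ∀ A : ℕ, ∃ V : ℝ, 3 ≤ A → Big A V := by
    intro A
    by_cases hA : 3 ≤ A
    · obtain ⟨V, hV⟩ := big hA
      exact ⟨V, fun _ => hV⟩
    · exact ⟨0, fun h => absurd h hA⟩
  choose V hV using hex
  have h6 := Pool.Agent.X132.AX.lob6_pos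
  have h4 := Pool.Agent.X132.AX.lob4_pos
  set U : ℕ → ℝ := fun A => if A = 1 then 8 * GapVol.lob (π / 6) else
    if A = 2 then 16 * GapVol.lob (π / 4) else V A with hU
  have hU1 : U 1 = 8 * GapVol.lob (π / 6) := by rw [hU]; simp
  have hU2 : U 2 = 16 * GapVol.lob (π / 4) := by rw [hU]; simp
  have hU3 : ∀ A, 3 ≤ A → U A = V A := by
    intro A hA
    simp only [hU]
    rw [if_neg (by omega), if_neg (by omega)]
  have hlow : ∀ A, 3 ≤ A → 16 * GapVol.lob (π / 6) ≤ U A := fun A hA => by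
    rw [hU3 A hA]
    exact (hV A hA).2.1
  have hpos : ∀ A : ℕ, 1 ≤ A → 0 < U A := by
    intro A hA
    by_cases h3 : 3 ≤ A
    · have := hlow A h3
      linarith
    · have : A = 1 ∨ A = 2 := by omega
      rcases this with rfl | rfl
      · rw [hU1]; linarith
      · rw [hU2]; linarith
  have hone : ∀ A : ℕ, 1 ≤ A → Tendsto (fun N : ℕ => 2 * π / N *
      Real.log ‖(rep3 N (bl A true)).trace‖) atTop (𝓝 (U A)) := by
    intro A hA
    by_cases h3 : 3 ≤ A
    · rw [hU3 A h3]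
      exact (hV A h3).2.2.2
    · have : A = 1 ∨ A = 2 := by omega
      rcases this with rfl | rfl
      · rw [hU1]; exact Pool.Agent.X132.AX.base1
      · rw [hU2]; exact Pool.Agent.X132.AX.base2
  refine ⟨U, hU1, hU2, hlow 3 le_rfl, fun A B hA hAB => ?_, hpos, fun A n hA => ?_,
    fun A n hA hn => ?_⟩
  · by_cases h3 : 3 ≤ A
    · have hB : 3 ≤ B := by omega
      obtain ⟨⟨α, b, η, hC, hb, hv⟩, -⟩ := hV A h3
      obtain ⟨⟨α', b', η', hC', hb', hv'⟩, -⟩ := hV B hB
      rw [hU3 A h3, hU3 B hB, hv, hv']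
      have hAB' : (A : ℝ) / 2 < (B : ℝ) / 2 := by
        have : (A : ℝ) < B := by exact_mod_cast hAB
        linarith
      have := hp_lt hAB' hC hb hC' hb'
      linarith
    · have hl := lob_lt
      have hu := u12
      have hA' : A = 1 ∨ A = 2 := by omega
      by_cases hB : 3 ≤ B
      · have := hlow B hB
        rcases hA' with rfl | rfl
        · rw [hU1]; linarith
        · rw [hU2]; linarith
      · have hA1 : A = 1 := by omega
        have hB2 : B = 2 := by omega
        subst hA1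
        subst hB2
        rw [hU1, hU2]
        exact hu
  · by_cases h3 : 3 ≤ A
    · rw [hU3 A h3]
      exact (hV A h3).2.2.1 n
    · have : A = 1 ∨ A = 2 := by omega
      rcases this with rfl | rfl
      · rw [hU1]; exact great1 n
      · rw [hU2]; exact great2 n
  · have h5 := hone A hA
    rw [Pool.Agent.X132.AX.bl_eq] at h5 ⊢
    exact growth_pow (Pool.Agent.X132.AX.uA_lt A) (by omega) (hpos A hA) h5

end Pool.Agent.H9.BX
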