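import Pool.Agent.H9.BX.Bnd

/-!
# The bounds in the form used by the estimates of the entries
-/

set_option autoImplicit false

namespace Pool.Agent.H9.BX

open Filter Set GapVol Pool.Agent.W709.VC Pool.Agent.W719.BX Pool.Agent.W402.VC
open scoped Real Topology

/-- the bounds of the potential along the path -/
def Bd (m α₀ b₀ η : ℝ) : Prop :=
  (16 * GapVol.lob (π / 6) ≤ 2 * hp m α₀ b₀ η) ∧
  ∀ α : ℝ, 0 ≤ α → α ≤ π →
    (∀ x : ℝ, -π ≤ x → x ≤ π / m → hp m α x η ≤ hp m α₀ b₀ η) ∧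
    (∀ y : ℝ, 0 < y → y ≤ η → hp m α (π / m) y ≤ hp m α (π / m) η) ∧
    (∀ h x : ℝ, 0 < h → h ≤ η → π / m ≤ x → x ≤ π →
      hp m α x h ≤ hp m α (π / m) η + 2 * π * m * h)

/-- quadratic decay on the horizontal line -/
def Qd (m α₀ b₀ η : ℝ) : Prop := ∃ c : ℝ, 0 < c ∧
  ∀ x : ℝ, -π ≤ x → x ≤ π / m → hp m α₀ x η ≤ hp m α₀ b₀ η - c * (x - b₀) ^ 2

lemma pi32 : π / (3 / 2) = 2 * π / 3 := by ring

theorem Crit3.qd {α b η : ℝ} (h : Crit3 α b η) : Qd (3 / 2) α b η := by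
  obtain ⟨c, h0, h1⟩ := h.quad
  refine ⟨c, h0, fun x hx hx' => h1 x hx ?_⟩
  rwa [← pi32]

lemma lob_diff : lob (π / 6) - lob (π / 4) ≤ π / 24 * Real.log 2 := by
  have hpi := Real.pi_pos
  have h := Convex.mul_sub_le_image_sub_of_le_deriv (convex_Icc (π / 6) (π / 4))
    (f := lob) (C := -(Real.log 2 / 2)) ?_ ?_ ?_ (π / 6) ⟨le_rfl, by linarith⟩ (π / 4)
    ⟨by linarith, le_rfl⟩ (by linarith)
  · have e : -(Real.log 2 / 2) * (π / 4 - π / 6) = -(π / 24 * Real.log 2) := by ring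
    rw [e] at h
    linarith
  · intro t ht
    exact (lob_hasDeriv (by linarith [ht.1]) (by linarith [ht.2])).continuousAt.continuousWithinAt
  · intro t ht
    rw [interior_Icc] at ht
    exact (lob_hasDeriv (by linarith [ht.1])
      (by linarith [ht.2])).differentiableAt.differentiableWithinAt
  · intro t ht
    rw [interior_Icc] at ht
    rw [(lob_hasDeriv (by linarith [ht.1]) (by linarith [ht.2])).deriv]
    have h1 : Real.sin t ≤ Real.sin (π / 4) :=
      Real.sin_le_sin_of_le_of_le_pi_div_two (by linarith [ht.1]) (by linarith) ht.2.le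
    have h0 : 0 < Real.sin t := Real.sin_pos_of_pos_of_lt_pi (by linarith [ht.1])
      (by linarith [ht.2])
    rw [Real.sin_pi_div_four] at h1
    have h2 : Real.log (2 * Real.sin t) ≤ Real.log √2 :=
      Real.log_le_log (by positivity) (by linarith)
    rw [Real.log_sqrt (by norm_num)] at h2
    linarith

theorem Crit3.low {α b η : ℝ} (h : Crit3 α b η) :
    16 * GapVol.lob (π / 6) ≤ 2 * hp (3 / 2) α b η := by
  have hpi := Real.pi_pos
  have h1 := h.mx (α := π / 2) (x := π / 2) (by positivity) (by linarith) (by positivity)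
    (by linarith)
  have h2 : hp (3 / 2) (π / 2) (π / 2) η = 8 * lob (π / 4) + π / 2 * η := by
    unfold hp
    rw [show π / 2 + π / 2 = π by ring, sub_self, Pool.Agent.W973.VcVc.Lf_pi h.toC.hη,
      show π / 2 / 2 = π / 4 by ring]
    have : Lf η 0 = 0 := by
      unfold Lf
      exact intervalIntegral.integral_same
    rw [this]
    ring
  have h3 : Real.log 2 < 3 * η / 2 := by
    rw [Real.log_lt_iff_lt_exp (by norm_num)]
    exact h.hE
  have h4 := lob_diff
  have h5 := mul_lt_mul_of_pos_left h3 (show 0 < π / 3 by positivity)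
  rw [h2] at h1
  linarith

theorem Crit3.bd {α b η : ℝ} (hc : Crit3 α b η) : Bd (3 / 2) α b η := by
  have hpi := Real.pi_pos
  have hm0 : (0 : ℝ) < 3 / 2 := by norm_num
  refine ⟨hc.low, ?_⟩
  intro α hα0 hα1
  have hη := hc.toC.hη
  have hvup : ∀ y : ℝ, 0 < y → y ≤ η →
      hp (3 / 2) α (π / (3 / 2)) y ≤ hp (3 / 2) α (π / (3 / 2)) η := by
    intro y hy hyη
    rw [Pool.Agent.W52.BX.Bnd.hp_pim (3 / 2) α y hm0, Pool.Agent.W52.BX.Bnd.hp_pim (3 / 2) α η hm0]
    exact Pool.Agent.W305.VC.vup (3 / 2) α y η hm0 hy hyη hα0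
  refine ⟨?_, hvup, ?_⟩
  · intro x hx1 hx2
    rw [pi32] at hx2
    rcases le_total 0 x with hx | hx
    · exact hc.mx hα0 hα1 hx hx2
    · have h1 := Pool.Agent.W305.VC.neg (3 / 2 / 2) α x η (by positivity) hη hα0 hα1 hx1 hx
      have h2 := hc.mx hα0 hα1 (le_refl (0 : ℝ)) (by positivity)
      rw [Pool.Agent.W52.BX.Bnd.hp_eq (3 / 2) α 0 η] at h2
      rw [Pool.Agent.W52.BX.Bnd.hp_eq (3 / 2) α x η]
      linarith
  · intro h' x hh0 hhη hx1 hx2
    have h1 := Pool.Agent.W305.VC.real (3 / 2 / 2) α x (π / (3 / 2)) h' (by positivity) hh0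
      hα0 hα1 (by positivity) hx1 hx2
    have h2 := hvup h' hh0 hhη
    rw [Pool.Agent.W52.BX.Bnd.hp_eq (3 / 2) α (π / (3 / 2)) h'] at h2
    rw [Pool.Agent.W52.BX.Bnd.hp_eq (3 / 2) α x h']
    nlinarith

end Pool.Agent.H9.BX
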