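import Pool.Agent.H9.BX.Fle
import Pool.Graph.R_seed8.W52.BX.Bnd
import Pool.Graph.R_seed8.W973.VcVc

/-!
# The bounds of the potential for `m = 3/2`
-/

set_option autoImplicit false

namespace Pool.Agent.H9.BX

open Filter Set GapVol Pool.Agent.W709.VC Pool.Agent.W719.BX Pool.Agent.W402.VC
open Pool.Agent.W704.VC.Crit (cc)
open scoped Real Topology

lemma Crit3.X_le {α b η : ℝ} (h : Crit3 α b η) : Real.cosh η ≤ 31 / 25 := by
  have := cosh_le_of_Y h.toC.hη.le h.hY.le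
  norm_num at this
  linarith

lemma Crit3.rg {α b η x : ℝ} (h : Crit3 α b η) (h1 : π / 2 ≤ x) (h2 : x ≤ 2 * π / 3) : Rg η x :=
  ⟨h.toC.hη, h.X_le, h1, h2⟩

/-- the maximum decreases first -/
lemma Crit3.g1 {α b η x : ℝ} (h : Crit3 α b η) (h1 : π / 2 ≤ x) (h2 : x ≤ π / 2 + 2 / 5) :
    gx η x - gx η (π / 2) ≤ -2 * Real.log (102 / 100) * (x - π / 2) := by
  have hpi := Real.pi_gt_three
  have hrg : ∀ t ∈ Icc (π / 2) (π / 2 + 2 / 5), Rg η t := fun t ht =>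
    h.rg ht.1 (by linarith [ht.2])
  apply Convex.image_sub_le_mul_sub_of_deriv_le (convex_Icc (π / 2) (π / 2 + 2 / 5))
  · intro t ht
    exact (hrg t ht).dg.continuousAt.continuousWithinAt
  · intro t ht
    rw [interior_Icc] at ht
    exact (hrg t ⟨ht.1.le, ht.2.le⟩).dg.differentiableAt.differentiableWithinAt
  · intro t ht
    rw [interior_Icc] at ht
    have hr := hrg t ⟨ht.1.le, ht.2.le⟩
    rw [hr.dg.deriv]
    apply hr.F1 h.hY.le
    have e : Real.cos t = -Real.sin (t - π / 2) := by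
      rw [Real.sin_sub_pi_div_two]
      ring
    rw [e]
    have := Real.sin_le (x := t - π / 2) (by linarith [ht.1])
    linarith [ht.2]
  · exact ⟨le_rfl, by linarith⟩
  · exact ⟨h1, h2⟩
  · exact h1

lemma Crit3.g2 {α b η x : ℝ} (h : Crit3 α b η) (h1 : π / 2 + 2 / 5 ≤ x) (h2 : x ≤ 2 * π / 3) :
    gx η x - gx η (π / 2 + 2 / 5) ≤ -2 * Real.log (96 / 100) * (x - (π / 2 + 2 / 5)) := by
  have hpi := Real.pi_gt_three
  have hrg : ∀ t ∈ Icc (π / 2 + 2 / 5) (2 * π / 3), Rg η t := fun t ht =>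
    h.rg (by linarith [ht.1]) ht.2
  apply Convex.image_sub_le_mul_sub_of_deriv_le (convex_Icc (π / 2 + 2 / 5) (2 * π / 3))
  · intro t ht
    exact (hrg t ht).dg.continuousAt.continuousWithinAt
  · intro t ht
    rw [interior_Icc] at ht
    exact (hrg t ⟨ht.1.le, ht.2.le⟩).dg.differentiableAt.differentiableWithinAt
  · intro t ht
    rw [interior_Icc] at ht
    have hr := hrg t ⟨ht.1.le, ht.2.le⟩
    rw [hr.dg.deriv]
    apply hr.F2 h.hY.le
    have e : Real.cos (π / 2 + 2 / 5) = -Real.sin (2 / 5) := by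
      rw [add_comm, Real.cos_add_pi_div_two]
    have h3 : Real.cos t ≤ Real.cos (π / 2 + 2 / 5) :=
      Real.cos_le_cos_of_nonneg_of_le_pi (by linarith) (by linarith [ht.2]) ht.1.le
    have h4 : (2 / 5 : ℝ) - (2 / 5) ^ 3 / 6 < Real.sin (2 / 5) := Real.sin_gt_sub_cube (by norm_num)
    rw [e] at h3
    norm_num at h4
    linarith
  · exact ⟨le_rfl, by linarith⟩
  · exact ⟨h1, h2⟩
  · exact h1

lemma log1 : 1 / 51 ≤ Real.log (102 / 100) := by
  have := Real.one_sub_inv_le_log_of_pos (x := 102 / 100) (by norm_num)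
  norm_num at this ⊢
  linarith

lemma log2 : -(1 / 24) ≤ Real.log (96 / 100) := by
  have := Real.one_sub_inv_le_log_of_pos (x := 96 / 100) (by norm_num)
  norm_num at this ⊢
  linarith

/-- the maximum beyond `π/2` is smaller -/
lemma Crit3.g3 {α b η x : ℝ} (h : Crit3 α b η) (h1 : π / 2 < x) (h2 : x ≤ 2 * π / 3) :
    gx η x < gx η (π / 2) := by
  have hpi := Real.pi_gt_three
  have hpi2 := Real.pi_lt_d2
  have l1 := log1
  have l2 := log2
  rcases le_total x (π / 2 + 2 / 5) with h3 | h3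
  · have h4 := h.g1 h1.le h3
    have : 0 < 2 * Real.log (102 / 100) * (x - π / 2) := by
      apply mul_pos <;> linarith
    linarith
  · have h4 := h.g1 (x := π / 2 + 2 / 5) (by linarith) le_rfl
    have h5 := h.g2 h3 h2
    have h6 : -2 * Real.log (96 / 100) * (x - (π / 2 + 2 / 5)) ≤ 2 * (1 / 24) * (63 / 500) := by
      have h7 : x - (π / 2 + 2 / 5) ≤ 63 / 500 := by linarith
      have h8 : 0 ≤ x - (π / 2 + 2 / 5) := by linarith
      have h9 : -Real.log (96 / 100) ≤ 1 / 24 := by linarith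
      nlinarith [mul_le_mul_of_nonneg_right h9 h8]
    have h10 : -2 * Real.log (102 / 100) * (π / 2 + 2 / 5 - π / 2) ≤ -2 * (1 / 51) * (2 / 5) := by
      have : π / 2 + 2 / 5 - π / 2 = 2 / 5 := by ring
      rw [this]
      linarith
    norm_num at h6 h10
    linarith

lemma hp_gx {η x α : ℝ} (h : Rg η x) (h0 : 0 ≤ α) (h1 : α ≤ π) : hp (3 / 2) α x η ≤ gx η x := by
  have h2 := h.max (m := 3 / 4) h0 h1
  rw [Pool.Agent.W363.BX.hp_eq]
  unfold gx
  have : (3 / 2 / 2 : ℝ) = 3 / 4 := by norm_num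
  rw [this]
  linarith

lemma gx_hp (η x : ℝ) : gx η x = hp (3 / 2) (Real.arccos (cc x η)) x η := by
  rw [Pool.Agent.W363.BX.hp_eq]
  unfold gx
  have : (3 / 2 / 2 : ℝ) = 3 / 4 := by norm_num
  rw [this]

/-- the maximum, first part -/
lemma Crit3.mx1 {α₀ b₀ η : ℝ} (hc : Crit3 α₀ b₀ η) {α x : ℝ} (hα0 : 0 ≤ α) (hα1 : α ≤ π)
    (hx0 : 0 ≤ x) (hx2 : x ≤ π / 2) : hp (3 / 2) α x η ≤ hp (3 / 2) α₀ b₀ η := by
  have hpi := Real.pi_pos
  obtain ⟨hC, hb, -, -⟩ := hc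
  have hc1 : 4 * (3 / 2 / 2) * η + ell η (b₀ + α₀) - ell η (b₀ - α₀) = 0 := by
    have := hC.c1
    linarith
  have hmax := Pool.Agent.W363.BX.maxg (3 / 2 / 2) α₀ b₀ η hC.hη hC.hα hC.hb hb
    (by linarith [hC.hα2]) hc1 hC.c2
  rw [Pool.Agent.W363.BX.hp_eq, Pool.Agent.W363.BX.hp_eq]
  rcases le_total (α + x) π with h | h
  · linarith [hmax α x hα0 hx0 hx2 h]
  · have h1 : pot (3 / 2 / 2) α x η ≤ pot (3 / 2 / 2) (π - x) x η :=
      Pool.Agent.W363.BX.anti hC.hη hC.hX hx0 hx2 ⟨le_rfl, by linarith⟩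
        ⟨by linarith, hα1⟩ (by linarith)
    have h2 := hmax (π - x) x (by linarith) hx0 hx2 (by linarith)
    linarith

lemma Crit3.gx0 {α₀ b₀ η : ℝ} (hc : Crit3 α₀ b₀ η) : gx η (π / 2) ≤ hp (3 / 2) α₀ b₀ η := by
  rw [gx_hp]
  exact hc.mx1 (Real.arccos_nonneg _) (Real.arccos_le_pi _) (by positivity) le_rfl

/-- the maximum -/
theorem Crit3.mx {α₀ b₀ η : ℝ} (hc : Crit3 α₀ b₀ η) {α x : ℝ} (hα0 : 0 ≤ α) (hα1 : α ≤ π)
    (hx0 : 0 ≤ x) (hx2 : x ≤ 2 * π / 3) : hp (3 / 2) α x η ≤ hp (3 / 2) α₀ b₀ η := by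
  rcases le_or_gt x (π / 2) with h | h
  · exact hc.mx1 hα0 hα1 hx0 h
  · exact ((hp_gx (hc.rg h.le hx2) hα0 hα1).trans (hc.g3 h hx2).le).trans hc.gx0

/-- quadratic decay -/
theorem Crit3.quad {α₀ b₀ η : ℝ} (hc : Crit3 α₀ b₀ η) : ∃ c : ℝ, 0 < c ∧
    ∀ x : ℝ, -π ≤ x → x ≤ 2 * π / 3 →
      hp (3 / 2) α₀ x η ≤ hp (3 / 2) α₀ b₀ η - c * (x - b₀) ^ 2 := by
  have hpi := Real.pi_pos
  have hC := hc.toC
  have hc1 : 4 * (3 / 2 / 2) * η + ell η (b₀ + α₀) - ell η (b₀ - α₀) = 0 := by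
    have := hC.c1
    linarith
  obtain ⟨c, hc0, h⟩ := Pool.Agent.W363.BX.quadg (3 / 2 / 2) α₀ b₀ η (π / 2) (by norm_num)
    hC.hη hC.hα hC.hb hc1 hc.hb2 le_rfl (by linarith [hC.hα2])
  have h' : ∀ x : ℝ, -π ≤ x → x ≤ π / 2 →
      hp (3 / 2) α₀ x η ≤ hp (3 / 2) α₀ b₀ η - c * (x - b₀) ^ 2 := by
    intro x hx0 hx1
    rw [Pool.Agent.W363.BX.hp_eq, Pool.Agent.W363.BX.hp_eq]
    linarith [h x hx0 hx1]
  have hneg : ∀ x ∈ Icc (π / 2) (2 * π / 3), hp (3 / 2) α₀ x η < hp (3 / 2) α₀ b₀ η := by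
    intro x hx
    rcases hx.1.eq_or_lt with h1 | h1
    · have h2 := h' (π / 2) (by linarith) le_rfl
      have h3 : 0 < c * (π / 2 - b₀) ^ 2 := by
        have : 0 < π / 2 - b₀ := by linarith [hc.hb2]
        positivity
      rw [← h1]
      linarith
    · exact ((hp_gx (hc.rg h1.le hx.2) hC.hα.le (by linarith [hC.hα2])).trans_lt
        (hc.g3 h1 hx.2)).trans_le hc.gx0
  have hcont : Continuous fun x => hp (3 / 2) α₀ x η := by
    have e : (fun x => hp (3 / 2) α₀ x η) = fun x => pot (3 / 2 / 2) α₀ x η + 2 * π * η :=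
      funext fun x => Pool.Agent.W363.BX.hp_eq _ _ _ _
    rw [e]
    exact (Pool.Agent.W305.VC.pot_cont hC.hη).add continuous_const
  obtain ⟨z, hz, hzmax⟩ := isCompact_Icc.exists_isMaxOn
    (⟨π / 2, by constructor <;> linarith⟩ : (Icc (π / 2) (2 * π / 3)).Nonempty) hcont.continuousOn
  set γ := hp (3 / 2) α₀ b₀ η - hp (3 / 2) α₀ z η with hγ
  have hγ0 : 0 < γ := by
    have := hneg z hz
    linarith
  refine ⟨min c (γ / π ^ 2), lt_min hc0 (by positivity), ?_⟩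
  intro x hx0 hx1
  rcases le_total x (π / 2) with h1 | h1
  · have h2 := h' x hx0 h1
    have h3 : min c (γ / π ^ 2) * (x - b₀) ^ 2 ≤ c * (x - b₀) ^ 2 :=
      mul_le_mul_of_nonneg_right (min_le_left _ _) (sq_nonneg _)
    linarith
  · have h2 : hp (3 / 2) α₀ x η ≤ hp (3 / 2) α₀ z η := hzmax ⟨h1, hx1⟩
    have h3 : min c (γ / π ^ 2) * (x - b₀) ^ 2 ≤ γ / π ^ 2 * (x - b₀) ^ 2 :=
      mul_le_mul_of_nonneg_right (min_le_right _ _) (sq_nonneg _)
    have h4 : (x - b₀) ^ 2 ≤ π ^ 2 := by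
      have := hC.hb
      apply pow_le_pow_left₀ <;> linarith [hc.hb2]
    have h5 : γ / π ^ 2 * (x - b₀) ^ 2 ≤ γ / π ^ 2 * π ^ 2 :=
      mul_le_mul_of_nonneg_left h4 (by positivity)
    rw [div_mul_cancel₀ _ (by positivity)] at h5
    linarith

end Pool.Agent.H9.BX
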