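import Pool.Agent.H9.BX.Num

/-!
# Existence of the critical point for `m = 3/2`, with bounds
-/

set_option autoImplicit false

namespace Pool.Agent.H9.BX

open Real Set Filter Topology
open Pool.Agent.W709.VC Pool.Agent.W719.BX Pool.Agent.W704.VC.Crit W349.BX

lemma Ph_eb3 {m b : ℝ} (hm : 1 / 2 < m) (hb0 : 0 < b) (hb : b ≤ π / 2) : 0 < Ph m b (eb b) := by
  have hs : 0 < sin b := sin_pos_of_pos_of_lt_pi hb0 (by linarith [pi_pos])
  have hc : 0 ≤ cos b := cos_nonneg_of_mem_Icc ⟨by linarith [pi_pos], hb⟩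
  have he := eb_pos hb0 hb
  have h1 : th (eb b) < th (2 * m * eb b) := th_strictMono (by nlinarith)
  have hC := cosh_pos (eb b)
  have hCsq : cosh (eb b) ^ 2 = 2 - cos b ^ 2 := by
    have h2 := cosh_sq (eb b)
    rw [sinh_eb] at h2
    have h3 := Real.sin_sq_add_cos_sq b
    linarith
  have hG : G b (eb b) = th (eb b) := by
    unfold G th
    rw [abs_of_nonneg hc, sinh_eb]
    have e1 : 4 - D b (eb b) ^ 2 = (cosh (eb b) + cos b) ^ 2 := by
      unfold D
      nlinarith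
    rw [e1, Real.sqrt_sq (by positivity)]
    have e2 : 2 + cos b * D b (eb b) = cosh (eb b) * (cosh (eb b) + cos b) := by
      unfold D
      nlinarith
    rw [e2]
    have h4 : cosh (eb b) + cos b ≠ 0 := by positivity
    field_simp
  unfold Ph
  rw [hG]
  linarith

lemma exists_eta3 {m b : ℝ} (hm : 1 / 2 < m) (hb0 : 0 < b) (hb : b ≤ π / 2) :
    ∃ η, 0 < η ∧ η < eb b ∧ Ph m b η = 0 := by
  have hcont : ContinuousOn (fun η => Ph m b η) (Icc 0 (eb b)) :=
    ((continuous_Ph m).comp (Continuous.prodMk_right b)).continuousOn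
  have h := intermediate_value_Ioo (eb_pos hb0 hb).le hcont
  have hmem : (0:ℝ) ∈ Ioo (Ph m b 0) (Ph m b (eb b)) := ⟨Ph_zero hb0 hb, Ph_eb3 hm hb0 hb⟩
  obtain ⟨η, ⟨h1, h2⟩, h3⟩ := h hmem
  exact ⟨η, h1, h2, h3⟩

lemma tan_half_sq {τ : ℝ} (h : 0 < cos (τ / 2)) {t K : ℝ} (ht : 0 ≤ t) (hs : 0 ≤ sin (τ / 2))
    (hK : K ^ 2 * (1 + cos τ) ≤ t ^ 2 * (1 - cos τ)) :
    K ≤ t * (sin (τ / 2) / cos (τ / 2)) := by
  rw [← mul_div_assoc, le_div_iff₀ h]
  have e1 : cos τ = 2 * cos (τ / 2) ^ 2 - 1 := by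
    rw [← cos_two_mul]
    ring_nf
  have e2 := Real.sin_sq_add_cos_sq (τ / 2)
  have h3 : (K * cos (τ / 2)) ^ 2 ≤ (t * sin (τ / 2)) ^ 2 := by
    rw [e1] at hK
    nlinarith
  exact le_of_sq_le_sq h3 (by positivity) 

lemma tan_half_le {τ : ℝ} (h : 0 < cos (τ / 2)) (hc : 0 ≤ cos τ) {t K u : ℝ} (ht : 0 ≤ t)
    (ht1 : t ≤ u) (hK : 0 ≤ K) (hs : sin τ ≤ K) : t * (sin (τ / 2) / cos (τ / 2)) ≤ u * K := by
  have e1 : cos τ = 2 * cos (τ / 2) ^ 2 - 1 := by
    rw [← cos_two_mul]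
    ring_nf
  have e3 : sin τ = 2 * sin (τ / 2) * cos (τ / 2) := by
    rw [← sin_two_mul]
    ring_nf
  have h4 : sin (τ / 2) / cos (τ / 2) ≤ K := by
    rw [div_le_iff₀ h]
    have h5 : 1 ≤ 2 * cos (τ / 2) ^ 2 := by linarith
    have h6 : sin (τ / 2) * (2 * cos (τ / 2) ^ 2) ≤ K * cos (τ / 2) := by
      have : sin (τ / 2) * (2 * cos (τ / 2) ^ 2) = sin τ * cos (τ / 2) := by
        rw [e3]
        ring
      rw [this]
      exact mul_le_mul_of_nonneg_right hs h.le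
    rcases le_or_gt 0 (sin (τ / 2)) with h7 | h7
    · nlinarith
    · have : 0 ≤ K * cos (τ / 2) := by positivity
      linarith
  rcases le_or_gt 0 (sin (τ / 2) / cos (τ / 2)) with h7 | h7
  · exact mul_le_mul ht1 h4 h7 (ht.trans ht1)
  · have := mul_nonneg ht (neg_pos.mpr h7).le
    have := mul_nonneg (ht.trans ht1) hK
    linarith

lemma arctan_num : π / 4 + 27 / 100 ≤ arctan (9 / 5) := by
  have h1 : arctan (9 / 5) = arctan 1 + arctan (2 / 7) := by
    rw [arctan_add (by norm_num)]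
    norm_num
  rw [h1, arctan_one]
  have h2 : tan (27 / 100) ≤ 2 / 7 := by
    rw [tan_eq_sin_div_cos]
    have h3 : sin (27 / 100) ≤ 27 / 100 := sin_le (by norm_num)
    have h4 : 1 - (27 / 100 : ℝ) ^ 2 / 2 ≤ cos (27 / 100) := one_sub_sq_div_two_le_cos
    rw [div_le_iff₀ (by norm_num at h4; linarith)]
    norm_num at h4
    linarith
  have h5 : (27 / 100 : ℝ) = arctan (tan (27 / 100)) := by
    rw [arctan_tan] <;> linarith [pi_gt_three]
  rw [h5]
  have := arctan_mono h2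
  linarith

lemma arccos_num : π / 2 - 151 / 1000 ≤ arccos (3 / 20) := by
  have h1 : (151 / 1000 : ℝ) - (151 / 1000) ^ 3 / 6 < sin (151 / 1000) :=
    sin_gt_sub_cube (by norm_num)
  have h2 : arcsin (3 / 20) ≤ 151 / 1000 := by
    rw [arcsin_le_iff_le_sin' (by constructor <;> linarith [pi_gt_three])]
    norm_num at h1
    linarith
  unfold arccos
  linarith

lemma th_Y (η : ℝ) : th (η / 2) = (exp (η / 2) ^ 2 - 1) / (exp (η / 2) ^ 2 + 1) := by
  have h := exp_pos (η / 2)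
  unfold th
  rw [sinh_eq, cosh_eq, exp_neg]
  field_simp

/-- the third equation at `cos b = 3/20` -/
lemma third {b η : ℝ} (hb0 : 0 < b) (hb : b ≤ π / 2) (hη : 0 < η) (hβ : cos b = 3 / 20)
    (hch : cosh η < √2) (hcc : 0 < cc b η) (hY1 : 7 / 5 ≤ exp (η / 2))
    (hY2 : exp (η / 2) ≤ 1403 / 1000) (hαb : arccos (cc b η) + b < π) (hb' : b = arccos (3 / 20)) :
    0 < 2 * (3 / 2 * b - π) + (T η (b + arccos (cc b η)) - T η (b - arccos (cc b η))) := by
  have hpi := pi_gt_three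
  obtain ⟨a1, a2, a3, a4, a5⟩ := angle hb0 hb hη hch
  set α := arccos (cc b η) with hα
  set c := cc b η with hc
  have hcos : cos α = c := cos_arccos a3.le a4.le
  have hα0 : 0 < α := arccos_pos.mpr a4
  have hα2 : α < π / 2 := arccos_lt_pi_div_two.2 hcc
  -- the bound of `c`
  have hX : (1235 / 1000 : ℝ) ≤ cosh η := by
    have := le_cosh_of_Y (η := η) (y := 7 / 5) (by norm_num) hY1
    norm_num at this
    linarith
  have hc1 : c ≤ 191 / 1000 := by
    rw [hc]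
    unfold cc
    rw [hβ, div_le_iff₀ (by positivity)]
    have h1 : (1235 / 1000 : ℝ) ^ 2 ≤ cosh η ^ 2 := pow_le_pow_left₀ (by norm_num) hX 2
    norm_num at h1 ⊢
    linarith
  -- sines
  have hS2 : sin b ^ 2 = 391 / 400 := by
    rw [Real.sin_sq, hβ]
    norm_num
  have hS0 : 0 < sin b := sin_pos_of_pos_of_lt_pi hb0 (by linarith)
  have hs0 : 0 < sin α := sin_pos_of_pos_of_lt_pi hα0 (by linarith)
  have hs2 : sin α ^ 2 = 1 - c ^ 2 := by
    rw [Real.sin_sq, hcos]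
  have hcsq : c ^ 2 ≤ (191 / 1000) ^ 2 := pow_le_pow_left₀ hcc.le hc1 2
  have hs3 : 981 / 1000 ≤ sin α := by nlinarith
  have hS3 : sin b ≤ 989 / 1000 := by nlinarith
  have hSs : 9704 / 10000 ≤ sin b * sin α := by
    have h1 : (9704 / 10000 : ℝ) ^ 2 ≤ (sin b * sin α) ^ 2 := by
      rw [mul_pow, hS2, hs2]
      norm_num at hcsq ⊢
      linarith
    exact le_of_sq_le_sq h1 (by positivity)
  -- the hyperbolic tangent
  have hY0 := exp_pos (η / 2)
  have ht1 : 12 / 37 ≤ th (η / 2) := by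
    rw [th_Y, div_le_div_iff₀ (by norm_num) (by positivity)]
    nlinarith
  have ht2 : th (η / 2) ≤ 1 / 3 := by
    rw [th_Y, div_le_div_iff₀ (by positivity) (by norm_num)]
    nlinarith
  have ht0 : 0 ≤ th (η / 2) := by linarith
  -- first value
  have g1 : 9 / 5 ≤ th (η / 2) * (sin ((b + α) / 2) / cos ((b + α) / 2)) := by
    apply tan_half_sq (cos_pos_of_mem_Ioo ⟨by linarith, by linarith⟩) ht0
      (sin_nonneg_of_nonneg_of_le_pi (by linarith) (by linarith))
    have h1 : cos (b + α) ≤ -(941 / 1000) := by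
      rw [cos_add, hβ, hcos]
      linarith
    have h2 : (12 / 37 : ℝ) ^ 2 ≤ th (η / 2) ^ 2 := pow_le_pow_left₀ (by norm_num) ht1 2
    have h4 := mul_le_mul_of_nonneg_right h2 (show 0 ≤ 1 - cos (b + α) by
      linarith [cos_le_one (b + α)])
    refine le_trans ?_ h4
    norm_num
    linarith
  have g2 : th (η / 2) * (sin ((b - α) / 2) / cos ((b - α) / 2)) ≤ 1 / 3 * (1 / 20) := by
    apply tan_half_le (cos_pos_of_mem_Ioo ⟨by linarith, by linarith⟩)
      (cos_nonneg_of_mem_Icc ⟨by linarith, by linarith⟩) ht0 ht2 (by norm_num)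
    rw [sin_sub, hβ, hcos]
    have h1 : sin b * c ≤ 989 / 1000 * (191 / 1000) := mul_le_mul hS3 hc1 hcc.le (by norm_num)
    linarith
  have g3 : π / 4 + 27 / 100 ≤ arctan (th (η / 2) * (sin ((b + α) / 2) / cos ((b + α) / 2))) :=
    arctan_num.trans (arctan_mono g1)
  have g4 : arctan (th (η / 2) * (sin ((b - α) / 2) / cos ((b - α) / 2))) ≤ 1 / 3 * (1 / 20) := by
    refine (arctan_mono g2).trans ?_
    have h1 : (1 / 3 * (1 / 20) : ℝ) ≤ tan (1 / 3 * (1 / 20)) :=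
      le_tan (by norm_num) (by linarith)
    have h2 := arctan_mono h1
    rw [arctan_tan (by linarith) (by linarith)] at h2
    exact h2
  have g5 := arccos_num
  rw [← hb'] at g5
  unfold T
  linarith

end Pool.Agent.H9.BX
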