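import Pool.Agent.H9.BX.Crit

/-!
# The critical point for `m = 3/2`
-/

set_option autoImplicit false

namespace Pool.Agent.H9.BX

open Real Set Filter Topology
open Pool.Agent.W709.VC Pool.Agent.W719.BX Pool.Agent.W704.VC.Crit W349.BX

/-- the critical point with bounds -/
structure Crit3 (α b η : ℝ) : Prop where
  toC : Crit2 (3 / 2) α b η
  hb2 : b < π / 2
  hY : exp (η / 2) < 1403 / 1000
  hE : 2 < exp (3 * η / 2)

/-- existence -/
theorem crit3 : ∃ α b η : ℝ, Crit3 α b η := by
  set lo := π / 4 with hlo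
  set hi := arccos (3 / 20) with hhi
  have hcoshi : cos hi = 3 / 20 := cos_arccos (by norm_num) (by norm_num)
  have hlo0 : 0 < lo := by positivity
  have hhi2' : hi < π / 2 := arccos_lt_pi_div_two.2 (by norm_num)
  have hhi2 : hi ≤ π / 2 := hhi2'.le
  have hsq2 : √2 ^ 2 = (2:ℝ) := Real.sq_sqrt (by norm_num)
  have hlohi : lo ≤ hi := by
    by_contra hcon
    push Not at hcon
    have h1 : cos lo < cos hi := cos_lt_cos_of_nonneg_of_le_pi (arccos_nonneg _)
      (by linarith [pi_pos]) hcon
    rw [hlo, cos_pi_div_four, hcoshi] at h1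
    nlinarith [Real.sqrt_nonneg 2]
  have hex : ∀ b : ℝ, ∃ η, b ∈ Icc lo hi → 0 < η ∧ η < eb b ∧ Ph (3 / 4) b η = 0 := by
    intro b
    by_cases hb : b ∈ Icc lo hi
    · obtain ⟨η, h⟩ := exists_eta3 (m := 3 / 4) (b := b) (by norm_num)
        (lt_of_lt_of_le hlo0 hb.1) (hb.2.trans hhi2)
      exact ⟨η, fun _ => h⟩
    · exact ⟨0, fun h => absurd h hb⟩
  choose e he using hex
  have hecont := e_cont2 (by norm_num) hlo0 hhi2 e he
  have hb0 : ∀ b ∈ Icc lo hi, 0 < b := fun b hb => lt_of_lt_of_le hlo0 hb.1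
  have hb2 : ∀ b ∈ Icc lo hi, b ≤ π / 2 := fun b hb => hb.2.trans hhi2
  have hch : ∀ b ∈ Icc lo hi, cosh (e b) < √2 := fun b hb =>
    cosh_lt2 (he b hb).1 (he b hb).2.1
  have hall := fun b hb => crit12 (m := 3 / 4) (hb0 b hb) (hb2 b hb) (he b hb).1 (hch b hb)
    (he b hb).2.2
  have hcc : ∀ b ∈ Icc lo hi, 0 < cc b (e b) := fun b hb =>
    cc_pos (hb0 b hb) (hb2 b hb) (he b hb).1 (he b hb).2.1
  have hα2 : ∀ b ∈ Icc lo hi, arccos (cc b (e b)) < π / 2 := by
    intro b hb
    exact arccos_lt_pi_div_two.2 (hcc b hb)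
  have hcccont : ContinuousOn (fun b => cc b (e b)) (Icc lo hi) := by
    unfold cc
    apply ContinuousOn.div
    · exact (continuousOn_const.sub ((continuous_cosh.comp_continuousOn hecont).pow 2)).sub
        (continuous_cos.continuousOn.pow 2)
    · exact continuousOn_const.mul (continuousOn_const.add
        ((continuous_cosh.comp_continuousOn hecont).mul continuous_cos.continuousOn))
    · intro b hb
      have hc : 0 ≤ cos b := cos_nonneg_of_mem_Icc
        ⟨by linarith [pi_pos, hb0 b hb], hb2 b hb⟩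
      have : 0 < 2 * (1 + cosh (e b) * cos b) := by
        have := mul_nonneg (cosh_pos (e b)).le hc
        linarith
      exact this.ne'
  have hαcont : ContinuousOn (fun b => arccos (cc b (e b))) (Icc lo hi) :=
    continuous_arccos.comp_continuousOn hcccont
  let H : ℝ → ℝ := fun b => 2 * (3 / 2 * b - π) + (T (e b) (b + arccos (cc b (e b))) -
    T (e b) (b - arccos (cc b (e b))))
  have hrange : ∀ b ∈ Icc lo hi, -π < b - arccos (cc b (e b)) ∧
      b - arccos (cc b (e b)) < π ∧ -π < b + arccos (cc b (e b)) ∧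
      b + arccos (cc b (e b)) < π := by
    intro b hb
    obtain ⟨h1, h2, -, -⟩ := hall b hb
    have := hb0 b hb
    refine ⟨by linarith, by linarith, by linarith [pi_pos], by linarith⟩
  have hHcont : ContinuousOn H (Icc lo hi) := by
    apply ContinuousOn.add
    · exact (continuous_const.mul ((continuous_const.mul continuous_id).sub
        continuous_const)).continuousOn
    · apply ContinuousOn.sub
      · intro b hb
        have h1 := T_cont_at (η := e b) (hrange b hb).2.2.1 (hrange b hb).2.2.2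
        exact ContinuousAt.comp_continuousWithinAt (f := fun b => (e b, b + arccos (cc b (e b))))
          h1 ((hecont b hb).prodMk (continuousWithinAt_id.add (hαcont b hb)))
      · intro b hb
        have h1 := T_cont_at (η := e b) (hrange b hb).1 (hrange b hb).2.1
        exact ContinuousAt.comp_continuousWithinAt (f := fun b => (e b, b - arccos (cc b (e b))))
          h1 ((hecont b hb).prodMk (continuousWithinAt_id.sub (hαcont b hb)))
  have hlo' : lo ∈ Icc lo hi := ⟨le_rfl, hlohi⟩
  have hhi' : hi ∈ Icc lo hi := ⟨hlohi, le_rfl⟩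
  have hHlo : H lo < 0 := by
    have hα0 := (hall lo hlo').1
    have hα := hα2 lo hlo'
    have h1 : T (e lo) (lo + arccos (cc lo (e lo))) < π / 2 := by
      apply T_lt (he lo hlo').1 (by linarith) (hrange lo hlo').2.2.2
      set τ := lo + arccos (cc lo (e lo)) with hτ
      have hτ1 : τ < 3 * π / 4 := by linarith
      have hcosτ : -(√2 / 2) < cos τ := by
        have h3 : cos (3 * π / 4) < cos τ :=
          cos_lt_cos_of_nonneg_of_le_pi (by linarith) (by linarith [pi_pos]) hτ1
        have h4 : cos (3 * π / 4) = -(√2 / 2) := by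
          rw [show 3 * π / 4 = π - π / 4 by ring, cos_pi_sub, cos_pi_div_four]
        rw [h4] at h3
        exact h3
      have hC := hch lo hlo'
      have hC0 := cosh_pos (e lo)
      have hs0 : 0 < √2 := by positivity
      by_cases hneg : 0 ≤ cos τ
      · have := mul_nonneg hC0.le hneg
        linarith
      · push Not at hneg
        nlinarith
    have h2 : -(π / 2) < T (e lo) (lo - arccos (cc lo (e lo))) :=
      T_gt (he lo hlo').1 (by linarith [pi_pos]) (hrange lo hlo').2.1
    change 2 * (3 / 2 * lo - π) + (T (e lo) (lo + arccos (cc lo (e lo))) -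
      T (e lo) (lo - arccos (cc lo (e lo)))) < 0
    have e5 : 3 / 2 * lo = 3 * π / 8 := by
      rw [hlo]
      ring
    rw [e5]
    linarith [pi_pos]
  have hint : ∀ b ∈ Icc lo hi, ∫ τ in (b - arccos (cc b (e b)))..(b + arccos (cc b (e b))),
      sinh (e b) / (cosh (e b) + cos τ) = T (e b) (b + arccos (cc b (e b))) -
        T (e b) (b - arccos (cc b (e b))) := by
    intro b hb
    have h1 := (hall b hb).1
    exact int_T (hrange b hb).1 (by linarith) (hrange b hb).2.2.2 (he b hb).1
  have hHhi : 0 < H hi := by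
    have h1 := hall hi hhi'
    exact third (hb0 hi hhi') hhi2 (he hi hhi').1 hcoshi (hch hi hhi') (hcc hi hhi')
      (Y_mid (hb0 hi hhi') hhi2 (he hi hhi').1 (hch hi hhi') (he hi hhi').2.2 hcoshi).le
      (Y_hi (hb0 hi hhi') hhi2 (he hi hhi').1 (hch hi hhi') (he hi hhi').2.2 hcoshi.ge).le
      h1.2.1 hhi
  obtain ⟨b, ⟨hb1, hb2'⟩, hb3⟩ := intermediate_value_Ioo hlohi hHcont ⟨hHlo, hHhi⟩
  have hbI : b ∈ Icc lo hi := ⟨hb1.le, hb2'.le⟩
  obtain ⟨h1, h2, h3, h4⟩ := hall b hbI
  have hb0' := hb0 b hbI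
  have hb2'' : b < π / 2 := hb2'.trans_le hhi2
  have hcb1 : 3 / 20 ≤ cos b := by
    rw [← hcoshi]
    exact cos_le_cos_of_nonneg_of_le_pi hb0'.le (by linarith [pi_pos]) hb2'.le
  have hcb2 : cos b ^ 2 ≤ 1 / 2 := by
    have k1 : cos b ≤ √2 / 2 := by
      rw [← cos_pi_div_four]
      exact cos_le_cos_of_nonneg_of_le_pi hlo0.le (by linarith [pi_pos]) hb1.le
    nlinarith
  refine ⟨arccos (cc b (e b)), b, e b, ⟨h1, hα2 b hbI, hb0', (he b hbI).1, ?_, ?_, ?_, h4, ?_⟩,
    hb2'', Y_hi hb0' hb2''.le (he b hbI).1 (hch b hbI) (he b hbI).2.2 hcb1,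
    Y_lo hb0' hb2''.le (he b hbI).1 (hch b hbI) (he b hbI).2.2 hcb2⟩
  · have hC := hch b hbI
    have hC0 := cosh_pos (e b)
    nlinarith
  · linarith [pi_pos]
  · have : 4 * (3 / 4) * e b = 2 * (3 / 2) * e b := by ring
    rw [← this]
    exact h3
  · rw [hint b hbI]
    exact hb3

end Pool.Agent.H9.BX
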