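import Pool.Agent.H9.BX.Mx

/-!
# The bound of the derivative of the maximum
-/

set_option autoImplicit false

namespace Pool.Agent.H9.BX

open Filter Set GapVol Pool.Agent.W709.VC Pool.Agent.W719.BX Pool.Agent.W402.VC
open Pool.Agent.W704.VC.Crit (cc)
open scoped Real Topology

/-- the derivative is at most `-2 log q` -/
lemma Rg.F_le {η x q : ℝ} (h : Rg η x) (hq : 0 < q)
    (hk : q * Real.exp (3 * η / 2) * (Real.cosh η + Real.cos x) - 2 -
      Real.cos x * (Real.cosh η - Real.cos x) ≤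
      Real.sin x * √(4 - (Real.cosh η - Real.cos x) ^ 2)) : Fx η x ≤ -2 * Real.log q := by
  have hc2 := h.c2
  have hpi := Real.pi_pos
  set a := Real.arccos (cc x η) with ha
  have ha0 : 0 < a := h.pos
  have ha1 : a < π := h.lt_pi
  have hs : 0 < Real.sin (a / 2) := Real.sin_pos_of_pos_of_lt_pi (by linarith) (by linarith)
  have hsa : 0 < Real.sin a := Real.sin_pos_of_pos_of_lt_pi ha0 ha1
  have hcosa : Real.cos a = cc x η := h.cos_eq
  have h5 : 2 * (1 - Real.cos a) = (2 * Real.sin (a / 2)) ^ 2 := by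
    have h3 : Real.cos a = 2 * Real.cos (a / 2) ^ 2 - 1 := by
      rw [← Real.cos_two_mul]; congr 1; ring
    have h4 := Real.sin_sq_add_cos_sq (a / 2)
    rw [h3]
    linarith
  have h6 : 4 * Real.log (2 * Real.sin (a / 2)) = 2 * Real.log (2 * (1 - Real.cos a)) := by
    rw [h5, Real.log_pow]
    push_cast
    ring
  have hden := h.den
  have hXC := h.XC
  have hD0 := h.D0
  have hD2 := h.D2
  have h4D : 0 ≤ 4 - (Real.cosh η - Real.cos x) ^ 2 := by nlinarith
  have h1c : 0 < 1 - Real.cos a := by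
    rw [hcosa]
    linarith [h.c1]
  -- the sine of the angle
  have hsin : Real.sin a = (Real.cosh η + Real.cos x) * √(4 - (Real.cosh η - Real.cos x) ^ 2) /
      (2 * (1 + Real.cosh η * Real.cos x)) := by
    rw [ha, Real.sin_arccos]
    have e : 1 - cc x η ^ 2 = ((Real.cosh η + Real.cos x) *
        √(4 - (Real.cosh η - Real.cos x) ^ 2) / (2 * (1 + Real.cosh η * Real.cos x))) ^ 2 := by
      have : 1 - cc x η ^ 2 = (1 - cc x η) * (1 + cc x η) := by ring
      rw [this, h.a1, h.a2, div_pow, mul_pow, Real.sq_sqrt h4D]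
      field_simp
    rw [e, Real.sqrt_sq (by positivity)]
  have hX2 : Real.cosh η + Real.cos (x - a) = (Real.cosh η + Real.cos x) *
      (2 + Real.cos x * (Real.cosh η - Real.cos x) +
        Real.sin x * √(4 - (Real.cosh η - Real.cos x) ^ 2)) /
      (2 * (1 + Real.cosh η * Real.cos x)) := by
    rw [Real.cos_sub, hsin, hcosa]
    unfold cc
    field_simp
    ring
  have hkey : q * Real.exp (3 * η / 2) * (2 * (1 - Real.cos a)) ≤
      2 * Real.cosh η + 2 * Real.cos (x - a) := by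
    have e1 : 2 * Real.cosh η + 2 * Real.cos (x - a) =
        2 * (Real.cosh η + Real.cos (x - a)) := by ring
    rw [e1, hX2, hcosa, h.a1]
    rw [← sub_nonneg]
    have e2 : 2 * ((Real.cosh η + Real.cos x) *
      (2 + Real.cos x * (Real.cosh η - Real.cos x) +
        Real.sin x * √(4 - (Real.cosh η - Real.cos x) ^ 2)) /
      (2 * (1 + Real.cosh η * Real.cos x))) - q * Real.exp (3 * η / 2) *
        (2 * ((Real.cosh η + Real.cos x) ^ 2 / (2 * (1 + Real.cosh η * Real.cos x)))) =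
        (Real.cosh η + Real.cos x) / (1 + Real.cosh η * Real.cos x) *
        (Real.sin x * √(4 - (Real.cosh η - Real.cos x) ^ 2) -
          (q * Real.exp (3 * η / 2) * (Real.cosh η + Real.cos x) - 2 -
      Real.cos x * (Real.cosh η - Real.cos x))) := by
      field_simp
      ring
    rw [e2]
    exact mul_nonneg (by positivity) (by linarith)
  have hlog := Real.log_le_log (by positivity) hkey
  rw [Real.log_mul (by positivity) (by positivity), Real.log_mul hq.ne' (Real.exp_pos _).ne',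
    Real.log_exp] at hlog
  have hell : ell η (x - a) = Real.log (2 * Real.cosh η + 2 * Real.cos (x - a)) := rfl
  unfold Fx
  rw [← ha]
  linarith

/-- the polynomial criterion -/
lemma Rg.F_le' {η x q : ℝ} (h : Rg η x) (hq : 1 / 2 ≤ q) (hY : Real.exp (η / 2) ≤ 1403 / 1000)
    (hk : (q * (1403 / 1000) ^ 3 * ((((1403 / 1000 : ℝ) ^ 2 + ((1403 / 1000) ^ 2)⁻¹) / 2) +
      Real.cos x) - 2 - Real.cos x * ((((1403 / 1000 : ℝ) ^ 2 + ((1403 / 1000) ^ 2)⁻¹) / 2) -
        Real.cos x)) ^ 2 ≤ (1 - Real.cos x ^ 2) *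
        (4 - ((((1403 / 1000 : ℝ) ^ 2 + ((1403 / 1000) ^ 2)⁻¹) / 2) - Real.cos x) ^ 2)) :
    Fx η x ≤ -2 * Real.log q := by
  apply h.F_le (by linarith)
  have hX := cosh_le_of_Y h.hη.le hY
  set X' : ℝ := ((1403 / 1000 : ℝ) ^ 2 + ((1403 / 1000) ^ 2)⁻¹) / 2 with hX'
  have hE : Real.exp (3 * η / 2) ≤ (1403 / 1000) ^ 3 := by
    rw [exp_Y]
    exact pow_le_pow_left₀ (Real.exp_pos _).le hY 3
  have k1 := lhs_mono (E := q * Real.exp (3 * η / 2)) (E' := q * (1403 / 1000) ^ 3)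
    (mul_le_mul_of_nonneg_left hE (by linarith)) hX (C := Real.cos x) h.XC.le (by
      have := h.C0
      have : (0 : ℝ) ≤ q * (1403 / 1000) ^ 3 := by positivity
      linarith)
  have k2 := rhs_anti h.S0.le hX (C := Real.cos x) (by linarith [h.D0])
  have hR : Real.sin x * √(4 - (X' - Real.cos x) ^ 2) =
      √((1 - Real.cos x ^ 2) * (4 - (X' - Real.cos x) ^ 2)) := by
    rw [← Real.sin_sq, Real.sqrt_mul (sq_nonneg _), Real.sqrt_sq h.S0.le]
  rw [hR] at k2
  have k4 := Real.le_sqrt_of_sq_le hk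
  exact (k1.trans k4).trans k2

/-- first piece -/
lemma Rg.F1 {η x : ℝ} (h : Rg η x) (hY : Real.exp (η / 2) ≤ 1403 / 1000)
    (hx : -(2 / 5) ≤ Real.cos x) : Fx η x ≤ -2 * Real.log (102 / 100) := by
  apply h.F_le' (by norm_num) hY
  have h0 := h.C0
  obtain ⟨v, hv⟩ : ∃ v, v = -Real.cos x := ⟨_, rfl⟩
  have e : Real.cos x = -v := by linarith
  rw [e]
  have hv0 : 0 ≤ v := by linarith
  have hv1 : 0 ≤ 2 / 5 - v := by linarith
  norm_num
  nlinarith [mul_nonneg (mul_nonneg hv0 hv0) hv0, mul_nonneg (mul_nonneg hv0 hv0) hv1,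
    mul_nonneg (mul_nonneg hv0 hv1) hv1, mul_nonneg (mul_nonneg hv1 hv1) hv1]

/-- second piece -/
lemma Rg.F2 {η x : ℝ} (h : Rg η x) (hY : Real.exp (η / 2) ≤ 1403 / 1000)
    (hx : Real.cos x ≤ -(38 / 100)) : Fx η x ≤ -2 * Real.log (96 / 100) := by
  apply h.F_le' (by norm_num) hY
  have h0 := h.C1
  obtain ⟨v, hv⟩ : ∃ v, v = -Real.cos x := ⟨_, rfl⟩
  have e : Real.cos x = -v := by linarith
  rw [e]
  have hv0 : 0 ≤ v - 38 / 100 := by linarith
  have hv1 : 0 ≤ 1 / 2 - v := by linarith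
  norm_num
  nlinarith [mul_nonneg (mul_nonneg hv0 hv0) hv0, mul_nonneg (mul_nonneg hv0 hv0) hv1,
    mul_nonneg (mul_nonneg hv0 hv1) hv1, mul_nonneg (mul_nonneg hv1 hv1) hv1]

end Pool.Agent.H9.BX
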