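import Pool.Agent.H9.BX.Geo

/-!
# The growth of the traces of the braids `(σ₁³ σ₂⁻³)^n`
-/

set_option autoImplicit false

namespace Pool.Agent.H9.BX

open Filter Finset Pool.Agent.W715.VC Pool.Agent.W709.VC Pool.Agent.W719.BX
open scoped Real Topology

lemma three_half : (((3 : ℕ) : ℝ)) / 2 = 3 / 2 := by norm_num

section
variable {α b η : ℝ} (hc : Crit3 α b η)
include hc

theorem Crit3.gr : Tendsto (fun N : ℕ => 2 * π / N * Real.log (Pool.Agent.W719.BX.SS 3 N)) atTop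
    (𝓝 (2 * hp (3 / 2) α b η)) := by
  have hC : Crit2 (((3 : ℕ) : ℝ) / 2) α b η := by
    rw [three_half]
    exact hc.toC
  have hB : Bd (((3 : ℕ) : ℝ) / 2) α b η := by
    rw [three_half]
    exact hc.bd
  have hQ : Qd (((3 : ℕ) : ℝ) / 2) α b η := by
    rw [three_half]
    exact hc.qd
  have h1 := fun ε (hε : (0 : ℝ) < ε) => Pool.Agent.H9.BX.up Pool.Agent.W193.BX.path Pool.Agent.W347.BX.vert
    Pool.Agent.W347.BX.pb (Pool.Agent.W605.BX.simp W349.BX.lag) le_rfl hC hB hε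
  have h2 := fun ε (hε : (0 : ℝ) < ε) => Pool.Agent.H9.BX.low Pool.Agent.W193.BX.path Pool.Agent.W347.BX.vert
    Pool.Agent.W347.BX.pb le_rfl hC hc.hb2 hB hQ hε
  have h := Pool.Agent.H9.BX.gr h1 h2
  rwa [three_half] at h

theorem Crit3.pos : 0 < 2 * hp (3 / 2) α b η := by
  have h1 := hc.bd.1
  have h2 := Pool.Agent.W709.VC.lob6_pos
  linarith

/-- the growth of the trace of `σ₁³ σ₂⁻³` -/
theorem Crit3.trace_growth :
    Tendsto (fun N : ℕ => 2 * Real.pi / N *
      Real.log ‖(rep3 N (uA 3 ++ dual (uA 3))).trace‖) atTop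
      (𝓝 (2 * hp (3 / 2) α b η)) := by
  set T : ℕ → ℝ := fun N => if N < 2 then 0 else Pool.Agent.W719.BX.SS 3 N with hT
  set S : ℕ → ℝ := fun N => if N < 2 then 0 else ‖(rep3 N (uA 3 ++ dual (uA 3))).trace‖ with hS
  have hT2 : ∀ N, 2 ≤ N → T N = Pool.Agent.W719.BX.SS 3 N := fun N hN => if_neg (by omega)
  have hS2 : ∀ N, 2 ≤ N → S N = ‖(rep3 N (uA 3 ++ dual (uA 3))).trace‖ := fun N hN =>
    if_neg (by omega)
  have hT1 : ∀ N, N < 2 → T N = 0 := fun N hN => if_pos hN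
  have hS1 : ∀ N, N < 2 → S N = 0 := fun N hN => if_pos hN
  have hT0 : ∀ N, 0 ≤ T N := fun N => by
    by_cases h : N < 2
    · rw [hT1 N h]
    · rw [hT2 N (by omega)]
      exact SS_nonneg 3 N
  have h := growth_abs (T := T) (S := S) hT0 (n := 1) one_ne_zero ?_ ?_ hc.pos ?_
  · rw [Nat.cast_one, one_mul] at h
    refine h.congr' ?_
    filter_upwards [eventually_ge_atTop 2] with N hN
    rw [hS2 N hN]
  · intro N hN
    rcases lt_or_ge N 2 with h2 | h2
    · rw [hT1 N h2, hS1 N h2]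
      positivity
    · rw [hT2 N h2, hS2 N h2, pow_one]
      refine (s_trb 3 N h2).1.trans ?_
      have h3 : (2 : ℝ) ≤ N := by exact_mod_cast h2
      apply mul_le_mul_of_nonneg_left _ (by positivity)
      have : 2 * (N : ℝ) ≤ (N : ℝ) ^ 3 := by
        have h4 : 0 ≤ (N : ℝ) ^ 2 - 2 := by nlinarith
        have h5 := mul_nonneg (show (0 : ℝ) ≤ N by linarith) h4
        nlinarith
      linarith
  · intro N hN
    rcases lt_or_ge N 2 with h2 | h2
    · rw [hT1 N h2, hS1 N h2, zero_div, pow_one, zero_add]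
      positivity
    · rw [hT2 N h2, hS2 N h2, pow_one]
      have h3 := (s_trb 3 N h2).2
      have h4 : (2 : ℝ) ≤ N := by exact_mod_cast h2
      have h5 : Pool.Agent.W719.BX.SS 3 N / (N : ℝ) ^ 3 ≤ Pool.Agent.W719.BX.SS 3 N / N := by
        apply div_le_div_of_nonneg_left (SS_nonneg 3 N) (by linarith)
        have h6 : 0 ≤ (N : ℝ) ^ 2 - 1 := by nlinarith
        have h7 := mul_nonneg (show (0 : ℝ) ≤ N by linarith) h6
        nlinarith
      linarith
  · refine hc.gr.congr' ?_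
    filter_upwards [eventually_ge_atTop 2] with N hN
    rw [hT2 N hN]

end

/-- the growth of the traces of the powers, with the geometric limit, `A = 3` -/
theorem mainN3 {n : ℕ} (hn : 1 ≤ n) : ∃ V : ℝ,
    IsGreatest {W : ℝ | ∃ w, bAngleN 3 n w ∧ bvolN 3 n w = W} V ∧
    n * (16 * GapVol.lob (π / 6)) ≤ V ∧
    Tendsto (fun N : ℕ => 2 * Real.pi / N *
      Real.log ‖(rep3 N (wpow (uA 3 ++ dual (uA 3)) n)).trace‖) atTop (𝓝 V) := by
  obtain ⟨α, b, η, hc⟩ := crit3
  have hC : Crit2 (((3 : ℕ) : ℝ) / 2) α b η := by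
    rw [three_half]
    exact hc.toC
  have h1 := (hb_of_crit Pool.Agent.W214.BX.alg2 le_rfl hc.hb2 hC).greatestN
    Pool.Agent.W120.VC.tet n
  rw [geo_value Pool.Agent.W214.BX.alg2 Pool.Agent.W389.BX.tel le_rfl hc.hb2 hC, three_half] at h1
  refine ⟨_, h1, ?_, ?_⟩
  · exact mul_le_mul_of_nonneg_left hc.bd.1 (by positivity)
  · refine growth_pow (u := uA 3) ?_ (by omega) hc.pos hc.trace_growth
    intro l hl
    unfold uA at hl
    rw [List.eq_of_mem_replicate hl]
    norm_num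

end Pool.Agent.H9.BX
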