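import Pool.Graph.R_seed8.W52.BX.Gr

set_option autoImplicit false

namespace Pool.Agent.H9.BX

open Filter Finset EvenVol Pool.Agent.W709.VC Pool.Agent.W719.BX Pool.Agent.W52.BX.Gr
open scoped Real Topology

/-- growth of the Hilbert-Schmidt norm from the bounds of the entries -/
theorem gr {A : ℕ} {P : ℝ}
    (h1 : ∀ ε : ℝ, 0 < ε → ∀ᶠ N : ℕ in atTop, ∀ k n : ℕ, k ≤ n → n < N →
      TT A N k n ≤ Real.exp (N / (4 * π) * (2 * P) + ε * N))
    (h2 : ∀ ε : ℝ, 0 < ε → ∀ᶠ N : ℕ in atTop, ∃ k n : ℕ, k ≤ n ∧ n < N ∧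
      Real.exp (N / (4 * π) * (2 * P) - ε * N) ≤ TT A N k n) :
    Tendsto (fun N : ℕ => 2 * π / N * Real.log (SS A N)) atTop (𝓝 (2 * P)) := by
  have hpi := Real.pi_pos
  rw [Metric.tendsto_atTop']
  intro ε' hε'
  set ε : ℝ := ε' / (16 * π) with hε
  have hεpos : 0 < ε := by positivity
  have hlog : Tendsto (fun N : ℕ => Real.log N / (N : ℝ)) atTop (𝓝 0) := by
    have := Real.isLittleO_log_id_atTop.tendsto_div_nhds_zero
    exact this.comp tendsto_natCast_atTop_atTop
  have hlog2 : ∀ᶠ N : ℕ in atTop, Real.log N / (N : ℝ) < ε := hlog.eventually (gt_mem_nhds hεpos)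
  have hev := (h1 ε hεpos).and ((h2 ε hεpos).and
    (hlog2.and (eventually_gt_atTop 0)))
  obtain ⟨N₀, hN₀⟩ := eventually_atTop.1 hev
  refine ⟨N₀, fun N hN => ?_⟩
  obtain ⟨hup, hlow, hl, hNpos⟩ := hN₀ N hN.le
  have hNr : (0 : ℝ) < N := by exact_mod_cast hNpos
  obtain ⟨k, n, hkn, hnN, hkl⟩ := hlow
  -- lower bound
  have hT : TT A N k n ^ 2 ≤ SS A N := by
    unfold SS
    have e1 : TT A N k n ^ 2 ≤ ∑ k ∈ range (n + 1), TT A N k n ^ 2 :=
      Finset.single_le_sum (f := fun k => TT A N k n ^ 2) (fun i _ => sq_nonneg _)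
        (mem_range.2 (by omega))
    exact e1.trans (Finset.single_le_sum (f := fun n => ∑ k ∈ range (n + 1), TT A N k n ^ 2)
      (fun i _ => Finset.sum_nonneg fun j _ => sq_nonneg _) (mem_range.2 hnN))
  have hlow2 : Real.exp (2 * (N / (4 * π) * (2 * P) - ε * N)) ≤ SS A N := by
    refine le_trans ?_ hT
    have e2 : Real.exp (2 * (N / (4 * π) * (2 * P) - ε * N)) =
        Real.exp (N / (4 * π) * (2 * P) - ε * N) ^ 2 := by
      rw [← Real.exp_nat_mul]
      norm_num
    rw [e2]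
    exact pow_le_pow_left₀ (Real.exp_pos _).le hkl 2
  have hSpos : 0 < SS A N := lt_of_lt_of_le (Real.exp_pos _) hlow2
  -- upper bound
  have hup2 : SS A N ≤ (N : ℝ) ^ 2 * Real.exp (2 * (N / (4 * π) * (2 * P) + ε * N)) := by
    unfold SS
    have e3 : ∀ n ∈ range N, ∑ k ∈ range (n + 1), TT A N k n ^ 2 ≤
        (N : ℝ) * Real.exp (2 * (N / (4 * π) * (2 * P) + ε * N)) := by
      intro n hn
      rw [mem_range] at hn
      have e4 : ∀ k ∈ range (n + 1), TT A N k n ^ 2 ≤
          Real.exp (2 * (N / (4 * π) * (2 * P) + ε * N)) := by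
        intro k hk
        rw [mem_range] at hk
        have e5 := hup k n (by omega) hn
        have e6 : Real.exp (2 * (N / (4 * π) * (2 * P) + ε * N)) =
            Real.exp (N / (4 * π) * (2 * P) + ε * N) ^ 2 := by
          rw [← Real.exp_nat_mul]
          norm_num
        rw [e6]
        exact pow_le_pow_left₀ (TT_nonneg _ _ _ _) e5 2
      refine (Finset.sum_le_sum e4).trans ?_
      rw [Finset.sum_const, card_range, nsmul_eq_mul]
      apply mul_le_mul_of_nonneg_right _ (Real.exp_pos _).le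
      exact_mod_cast (by omega : n + 1 ≤ N)
    refine (Finset.sum_le_sum e3).trans ?_
    rw [Finset.sum_const, card_range, nsmul_eq_mul]
    apply le_of_eq
    ring
  have hl1 : 2 * (N / (4 * π) * (2 * P) - ε * N) ≤ Real.log (SS A N) := by
    rw [Real.le_log_iff_exp_le hSpos]
    exact hlow2
  have hl2 : Real.log (SS A N) ≤ 2 * Real.log N + 2 * (N / (4 * π) * (2 * P) + ε * N) := by
    have e7 := Real.log_le_log hSpos hup2
    rw [Real.log_mul (by positivity) (Real.exp_pos _).ne', Real.log_exp, Real.log_pow] at e7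
    exact_mod_cast e7
  rw [Real.dist_eq, abs_lt]
  have hk0 : 0 < 2 * π / N := by positivity
  have f1 : 2 * π / N * (2 * (N / (4 * π) * (2 * P) - ε * N)) = 2 * P - 4 * π * ε := by
    field_simp
    ring
  have f2 : 2 * π / N * (2 * Real.log N + 2 * (N / (4 * π) * (2 * P) + ε * N)) =
      4 * π * (Real.log N / N) + 2 * P + 4 * π * ε := by
    field_simp
    ring
  have g1 := mul_le_mul_of_nonneg_left hl1 hk0.le
  have g2 := mul_le_mul_of_nonneg_left hl2 hk0.le
  rw [f1] at g1
  rw [f2] at g2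
  have f3 : 4 * π * ε = ε' / 4 := by
    rw [hε]
    field_simp
    ring
  have f4 : 4 * π * (Real.log N / N) < ε' / 4 := by
    rw [← f3]
    exact mul_lt_mul_of_pos_left hl (by positivity)
  constructor <;> linarith

end Pool.Agent.H9.BX
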