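import Pool.Agent.H9.BX.Lap
import Pool.Graph.R_seed8.W85.BX.Low

/-! # Project BX: lower bound for one entry

Copies `Pool/Agent/W709/VC/Low.lean`, `Low2.lean` (helper709). -/

set_option autoImplicit false
set_option maxHeartbeats 4000000

namespace Pool.Agent.H9.BX

open Filter Finset EvenVol Pool.Agent.H112R4.VL Pool.Agent.W709.VC Pool.Agent.W719.BX
  Pool.Agent.W85.BX
open scoped Real Topology

/-- the integral along the horizontal line -/
lemma horiz {A : ℕ} (hA : 3 ≤ A) {α₀ b₀ η : ℝ} (hC : Crit2 ((A : ℝ) / 2) α₀ b₀ η)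
    (hb2 : b₀ < π / 2) (hQ : Qd ((A : ℝ) / 2) α₀ b₀ η) {b₁ : ℝ} (hb₁ : b₁ = π / ((A : ℝ) / 2))
    (hb1 : b₀ < b₁) :
    ∃ δ : ℝ, 0 < δ ∧ ∀ᶠ N : ℕ in atTop,
      ‖Fi2 A N (dN α₀ N) (dN α₀ N) (-b₀ + η * Complex.I)‖ * (δ / Real.sqrt N) ≤
        ‖∫ x in (-b₁)..π, Fi2 A N (dN α₀ N) (dN α₀ N) (x + η * Complex.I)‖ := by
  have hp' := Real.pi_pos
  have hA' : (3 : ℝ) ≤ A := by exact_mod_cast hA
  have hη := hC.hη
  obtain ⟨c, hc, hquad⟩ := hQ
  rw [← hb₁] at hquad
  obtain ⟨cL, hcL, hlim⟩ := lap (dN α₀) hb2 hC (dN_close hC.hα.le)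
  obtain ⟨C, hC0, hpbf⟩ := pbf2 A (h := η) (H := η) hη
  obtain ⟨M, hM0, hM⟩ := hp_diff_lip (H := η) hη ((A : ℝ) / 2) α₀
  have hαπ : α₀ < π := by linarith [hC.hα2]
  set KN : ℕ → ℝ → ℂ := fun N x => Fi2 A N (dN α₀ N) (dN α₀ N) (x + η * Complex.I) /
    Fi2 A N (dN α₀ N) (dN α₀ N) (-b₀ + η * Complex.I) with hKN
  have hcont : ∀ᶠ N in atTop, Continuous (KN N) := by
    filter_upwards [eventually_gt_atTop 0] with N hN0
    exact (Fi2_cont A hN0 hη).div_const _
  have hbound : ∀ᶠ N : ℕ in atTop, ∀ x : ℝ, -b₁ ≤ x → x ≤ π →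
      ‖KN N x‖ ≤ Real.exp (2 * C + 4 * M) * Real.exp (-(c / (2 * π)) * N * (x - -b₀) ^ 2) := by
    filter_upwards [eventually_gt_atTop 0] with N hN0 x hx hx'
    have hNp : (0 : ℝ) < N := by exact_mod_cast hN0
    have hd := dN_lt hC.hα.le hαπ hN0
    have hne := Fi2_ne A (N := N) (k := dN α₀ N) (d := dN α₀ N) hN0 (b := b₀) hη
    have hne2 := Fi2_ne A (N := N) (k := dN α₀ N) (d := dN α₀ N) hN0 (b := -x) hη
    have hxx : (-((-x : ℝ) : ℂ) + η * Complex.I) = (x : ℂ) + η * Complex.I := by push_cast; ring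
    have q1 := hpbf N (dN α₀ N) hN0 hd.le b₀ η le_rfl le_rfl
    have q2 := hpbf N (dN α₀ N) hN0 hd.le (-x) η le_rfl le_rfl
    have q3 := hquad (-x) (by linarith) (by linarith)
    set α : ℝ := 2 * π * (dN α₀ N) / N with hα
    have q4 := hM α (-x) b₀ η le_rfl le_rfl
    have hdist : |α - α₀| ≤ 2 * π / N := by
      have := dN_close hC.hα.le N
      have e : α - α₀ = (2 * π * (dN α₀ N) - α₀ * N) / N := by
        rw [hα]
        field_simp
      rw [e, abs_div, abs_of_pos hNp]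
      exact div_le_div_of_nonneg_right this hNp.le
    rw [hKN]
    show ‖Fi2 A N (dN α₀ N) (dN α₀ N) (x + η * Complex.I) /
      Fi2 A N (dN α₀ N) (dN α₀ N) (-b₀ + η * Complex.I)‖ ≤ _
    rw [norm_div]
    rw [hxx] at hne2 q2
    have hpos : 0 < ‖Fi2 A N (dN α₀ N) (dN α₀ N) (-b₀ + η * Complex.I)‖ := norm_pos_iff.2 hne
    have hpos2 : 0 < ‖Fi2 A N (dN α₀ N) (dN α₀ N) (x + η * Complex.I)‖ := norm_pos_iff.2 hne2
    rw [div_le_iff₀ hpos, ← Real.exp_add, ← Real.log_le_log_iff hpos2 (by positivity),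
      Real.log_mul (Real.exp_ne_zero _) hpos.ne', Real.log_exp]
    rw [abs_le] at q1 q2
    have q5 : N / (4 * π) * (2 * (hp ((A : ℝ) / 2) α (-x) η - hp ((A : ℝ) / 2) α b₀ η)) ≤
        N / (4 * π) * (2 * (-c * (-x - b₀) ^ 2 + 4 * M * (2 * π / N))) := by
      apply mul_le_mul_of_nonneg_left _ (by positivity)
      have : 4 * M * |α - α₀| ≤ 4 * M * (2 * π / N) :=
        mul_le_mul_of_nonneg_left hdist (by positivity)
      linarith
    have q6 : N / (4 * π) * (2 * (-c * (-x - b₀) ^ 2 + 4 * M * (2 * π / N))) =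
        -(c / (2 * π)) * N * (x - -b₀) ^ 2 + 4 * M := by
      field_simp
      ring
    have q7 : N / (4 * π) * (2 * (hp ((A : ℝ) / 2) α (-x) η - hp ((A : ℝ) / 2) α b₀ η)) =
        N / (4 * π) * (2 * (hp ((A : ℝ) / 2) α (-x) η - 8 * GapVol.lob (α / 2))) -
        N / (4 * π) * (2 * (hp ((A : ℝ) / 2) α b₀ η - 8 * GapVol.lob (α / 2))) := by
      ring
    rw [q6, q7] at q5
    linarith [q1.1, q1.2, q2.1, q2.2]
  have hpt : ∀ s : ℝ, Tendsto (fun N : ℕ => KN N (-b₀ + s / Real.sqrt N)) atTop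
      (𝓝 (Complex.exp (-cL * s ^ 2))) := by
    intro s
    have := hlim s
    refine this.congr (fun N => ?_)
    show _ = Fi2 A N (dN α₀ N) (dN α₀ N) (((-b₀ + s / Real.sqrt N : ℝ) : ℂ) + η * Complex.I) /
      Fi2 A N (dN α₀ N) (dN α₀ N) (-b₀ + η * Complex.I)
    push_cast
    rfl
  obtain ⟨δ, hδ, hev⟩ := Pool.Agent.W973.VcDc.dc KN cL (-b₀) (-b₁) π (Real.exp (2 * C + 4 * M))
    (c / (2 * π)) hcL
    (by linarith) (by linarith [hC.hb]) (by positivity) hcont hbound hpt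
  refine ⟨δ, hδ, ?_⟩
  filter_upwards [hev, eventually_gt_atTop 0] with N hN hN0
  have hne := Fi2_ne A (N := N) (k := dN α₀ N) (d := dN α₀ N) hN0 (b := b₀) hη
  have hN' : δ / Real.sqrt N ≤ ‖∫ x in (-b₁)..π, Fi2 A N (dN α₀ N) (dN α₀ N) (x + η * Complex.I) /
    Fi2 A N (dN α₀ N) (dN α₀ N) (-b₀ + η * Complex.I)‖ := hN
  rw [intervalIntegral.integral_div, norm_div] at hN'
  have hpos : 0 < ‖Fi2 A N (dN α₀ N) (dN α₀ N) (-b₀ + η * Complex.I)‖ := norm_pos_iff.2 hne
  rw [le_div_iff₀ hpos] at hN'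
  linarith

/-- lower bound -/
theorem low (hP : S_PATH2) (hV : S_VERT2) (hB : S_PB2) {A : ℕ} (hA : 3 ≤ A) {α₀ b₀ η : ℝ}
    (hC : Crit2 ((A : ℝ) / 2) α₀ b₀ η) (hbb : b₀ < π / 2) (hBN : Bd ((A : ℝ) / 2) α₀ b₀ η)
    (hQ : Qd ((A : ℝ) / 2) α₀ b₀ η) {ε : ℝ} (hε : 0 < ε) :
    ∀ᶠ N : ℕ in atTop, ∃ k n : ℕ, k ≤ n ∧ n < N ∧
    Real.exp (N / (4 * π) * (2 * hp ((A : ℝ) / 2) α₀ b₀ η) - ε * N) ≤ TT A N k n := by
  have hp' := Real.pi_pos
  have hA' : (3 : ℝ) ≤ A := by exact_mod_cast hA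
  have hQ0 := hQ
  set m : ℝ := (A : ℝ) / 2 with hm
  have hm2 : 3 / 2 ≤ m := by rw [hm]; linarith
  have hm0 : 0 < m := by linarith
  have hAm : (A : ℝ) = 2 * m := by rw [hm]; ring
  set V := hp m α₀ b₀ η with hVd
  set Λ := GapVol.lob (π / 6) with hΛ
  have hΛ0 : 0 < Λ := lob6_pos
  obtain ⟨hV10, hbnd⟩ := hBN
  rw [← hVd, ← hΛ] at hV10
  have hη := hC.hη
  have hα0 := hC.hα
  have hα2 := hC.hα2
  have hαπ : α₀ < π := by linarith
  have hpm : 0 < π / m := by positivity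
  have hpm2 : π / m ≤ π := by
    rw [div_le_iff₀ hm0]
    nlinarith
  set b₁ := π / m with hb₁
  have hb1a : b₀ < b₁ := by
    rw [hb₁, lt_div_iff₀ hm0]
    linarith [hC.hbm]
  have hb1b : b₁ ≤ π := hpm2
  have hb10 : 0 < b₁ := lt_trans hC.hb hb1a
  obtain ⟨c, hc, hquad⟩ := hQ
  rw [← hb₁, ← hVd] at hquad
  obtain ⟨-, hb2i, hb3i⟩ := hbnd α₀ hα0.le hαπ.le
  set δ : ℝ := min (c * (b₁ - b₀) ^ 2) Λ with hδd
  have hδ0 : 0 < δ := by
    apply lt_min _ hΛ0
    have : 0 < b₁ - b₀ := by linarith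
    positivity
  have hδ1 : δ ≤ c * (b₁ - b₀) ^ 2 := min_le_left _ _
  have hδ2 : δ ≤ Λ := min_le_right _ _
  set h : ℝ := min η (min (Λ / (2 * π * m)) (δ / (8 * π * m))) with hhd
  have hh : 0 < h := lt_min hη (lt_min (by positivity) (by positivity))
  have hhη : h ≤ η := min_le_left _ _
  have hh1 : 2 * π * m * h ≤ Λ := by
    have h1 : h ≤ Λ / (2 * π * m) := le_trans (min_le_right _ _) (min_le_left _ _)
    rw [le_div_iff₀ (by positivity)] at h1
    linarith
  have hh2 : 8 * π * m * h ≤ δ := by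
    have h1 : h ≤ δ / (8 * π * m) := le_trans (min_le_right _ _) (min_le_right _ _)
    rw [le_div_iff₀ (by positivity)] at h1
    linarith
  -- off-critical estimates at `α₀`
  have hq1 : hp m α₀ b₁ η ≤ V - δ := by
    have := hquad b₁ (by linarith) le_rfl
    linarith
  have w2 : ∀ y, h ≤ y → y ≤ η → hp m α₀ b₁ y ≤ V - δ := by
    intro y hy hy'
    have := hb2i y (by linarith) hy'
    linarith
  have w1 : ∀ b, b₁ ≤ b → b ≤ π → hp m α₀ b h ≤ V - δ / 2 := by
    intro b hb hb'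
    have h1 := hb3i h b hh hhη hb hb'
    linarith
  -- constants
  set ε' : ℝ := min (ε / 4) (δ / (200 * π)) with hε'
  have hε0 : 0 < ε' := lt_min (by positivity) (by positivity)
  have hε1 : ε' ≤ ε / 4 := min_le_left _ _
  have hε2 : ε' * (200 * π) ≤ δ := by
    have h1 := min_le_right (ε / 4) (δ / (200 * π))
    rw [← hε', le_div_iff₀ (by positivity)] at h1
    exact h1
  obtain ⟨ρ, hρ0, hρ⟩ := hp_unif (H := η) hh m α₀ (ρ := min (δ / 4) (2 * π * ε'))
    (lt_min (by positivity) (by positivity))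
  obtain ⟨δ₂, hδ₂, hhor⟩ := horiz hA hC hbb hQ0 rfl hb1a
  have e1 := hB A h η ε' hh hε0
  have e2 := hV A ε' hε0
  set K : ℝ := Real.sinh h * h + 1 * (2 * π) + 1 * η + Real.sinh η * η with hK
  have hsh : 0 ≤ Real.sinh h := Real.sinh_nonneg_iff.2 hh.le
  have hsη : 0 ≤ Real.sinh η := Real.sinh_nonneg_iff.2 hη.le
  have hK0 : 0 < K := by
    have : 0 ≤ Real.sinh h * h := by positivity
    have : 0 ≤ Real.sinh η * η := by positivity
    rw [hK]
    positivity
  have e3 := exp_small (c := δ₂ / (2 * K)) (ε := ε') (by positivity) hε0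
  have e4 := exp_small (c := δ₂ / (4 * π)) (ε := ε') (by positivity) hε0
  have e5 : ∀ᶠ N : ℕ in atTop, 2 * π / N ≤ ρ := by
    have : Tendsto (fun N : ℕ => 2 * π / (N : ℝ)) atTop (𝓝 0) :=
      tendsto_const_div_atTop_nhds_zero_nat _
    exact (this.eventually_lt_const hρ0).mono (fun N hN => hN.le)
  filter_upwards [e1, e2, e3, e4, e5, hhor, eventually_ge_atTop 2] with
    N h1 h2 h3 h4 h5 h6 hN2
  have hN0 : 0 < N := by omega
  have hNp : (0 : ℝ) < N := by exact_mod_cast hN0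
  have hd := dN_lt hα0.le hαπ hN0
  have hd4 := dN_le hα0.le hα2 (N := N)
  set d := dN α₀ N with hdd
  set α : ℝ := 2 * π * d / N with hα
  have hdist : |α - α₀| ≤ ρ := by
    have := dN_close hα0.le N
    have e : α - α₀ = (2 * π * (dN α₀ N) - α₀ * N) / N := by
      rw [hα]
      field_simp
      rw [hdd]
    rw [e, abs_div, abs_of_pos hNp]
    exact le_trans (div_le_div_of_nonneg_right this hNp.le) h5
  have hclose := hρ α hdist
  set n := N - 1 - d with hn
  have hnd : n + d + 1 = N := by omega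
  have hdn : d ≤ n := by omega
  refine ⟨d, n, hdn, by omega, ?_⟩
  have hb1π : |b₁| ≤ π := by rw [abs_of_pos hb10]; linarith
  rw [Pool.Agent.W85.BX.TT_path hP A hN2 hnd hh hhη hb1π]
  set k : ℝ := (‖brf (v0 N) n‖ / ‖brf (v0 N) d‖) ^ 2 with hk
  have hk0 : 0 < k := by
    have b1 : brf (v0 N) n ≠ 0 := TE.brf_ne hN2 _ (by omega)
    have b2 : brf (v0 N) d ≠ 0 := TE.brf_ne hN2 _ (by omega)
    have : 0 < ‖brf (v0 N) n‖ := norm_pos_iff.2 b1
    have : 0 < ‖brf (v0 N) d‖ := norm_pos_iff.2 b2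
    positivity
  have hnorm : ∀ z : ℂ, ‖((k : ℝ) : ℂ) * Fi2 A N d d z‖ = k * ‖Fi2 A N d d z‖ := by
    intro z
    rw [norm_mul, Complex.norm_real, Real.norm_eq_abs, abs_of_nonneg hk0.le]
  -- the pointwise bounds
  have hpt : ∀ b y : ℝ, h ≤ y → y ≤ η →
      Real.exp (N / (4 * π) * (2 * hp m α b y) - ε' * N) ≤ k * ‖Fi2 A N d d (-b + y * Complex.I)‖ ∧
      k * ‖Fi2 A N d d (-b + y * Complex.I)‖ ≤ Real.exp (N / (4 * π) * (2 * hp m α b y) + ε' * N) := by
    intro b y hy hy'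
    have g1 := h1 d d n hnd hdn b y hy hy'
    rw [← hk, ← hm, ← hα] at g1
    have g2 : 0 < k * ‖Fi2 A N d d (-b + y * Complex.I)‖ := by
      have := norm_pos_iff.2 (Fi2_ne A (N := N) (k := d) (d := d) hN0 (b := b) (lt_of_lt_of_le hh hy))
      positivity
    rw [abs_le] at g1
    have e : hp m α b y + hp m α b y = 2 * hp m α b y := by ring
    rw [e] at g1
    rw [← Real.le_log_iff_exp_le g2, ← Real.log_le_iff_le_exp g2]
    constructor <;> linarith [g1.1, g1.2]
  set E := Real.exp (N / (4 * π) * (2 * (V - δ / 4)) + ε' * N) with hE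
  have hE0 : 0 < E := Real.exp_pos _
  have hpN : 0 < N / (4 * π) := by positivity
  have hVδ : 0 ≤ V - δ / 4 := by linarith
  have hVN : 0 ≤ N / (4 * π) * (2 * (V - δ / 4)) := by positivity
  have key := path_sub_le (f := fun z => ((k : ℝ) : ℂ) * Fi2 A N d d z) hh.le hhη
    (b := b₁) (by linarith) (B1 := Real.sinh h * E) (B2 := E) (B3 := E)
    (B5 := Real.sinh η * E) ?_ ?_ ?_ ?_
  · -- conclusion
    have hint : ‖∫ x in (-b₁)..π, ((k : ℝ) : ℂ) * Fi2 A N d d (x + η * Complex.I)‖ =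
        k * ‖∫ x in (-b₁)..π, Fi2 A N d d (x + η * Complex.I)‖ := by
      rw [intervalIntegral.integral_const_mul, norm_mul, Complex.norm_real, Real.norm_eq_abs,
        abs_of_nonneg hk0.le]
    have key' : k * ‖∫ x in (-b₁)..π, Fi2 A N d d (x + η * Complex.I)‖ ≤
        ‖path (fun z => ((k : ℝ) : ℂ) * Fi2 A N d d z) h η b₁‖ +
          (Real.sinh h * E * h + E * (π - b₁) + E * (η - h) + Real.sinh η * E * η) := by
      rw [← hint]
      exact key
    have hrest : Real.sinh h * E * h + E * (π - b₁) + E * (η - h) + Real.sinh η * E * η ≤ E * K := by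
      have g1 : E * (π - b₁) ≤ E * (2 * π) := mul_le_mul_of_nonneg_left (by linarith) hE0.le
      have g2 : E * (η - h) ≤ E * η := mul_le_mul_of_nonneg_left (by linarith) hE0.le
      have g3 : E * K = Real.sinh h * E * h + E * (2 * π) + E * η + Real.sinh η * E * η := by
        rw [hK]
        ring
      rw [g3]
      linarith
    have hmain := (hpt b₀ η hhη le_rfl).1
    have hpot : V - 2 * π * ε' ≤ hp m α b₀ η := by
      have := (abs_le.1 (hclose b₀ η hhη le_rfl)).1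
      have := min_le_right (δ / 4) (2 * π * ε')
      linarith
    have hmain2 : Real.exp (N / (4 * π) * (2 * V) - 2 * ε' * N) ≤
        k * ‖Fi2 A N d d (-b₀ + η * Complex.I)‖ := by
      refine le_trans (Real.exp_le_exp.2 ?_) hmain
      have : N / (4 * π) * (2 * (V - 2 * π * ε')) ≤ N / (4 * π) * (2 * hp m α b₀ η) :=
        mul_le_mul_of_nonneg_left (by linarith) hpN.le
      have e : N / (4 * π) * (2 * (V - 2 * π * ε')) = N / (4 * π) * (2 * V) - ε' * N := by
        field_simp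
        ring
      linarith
    have hsq : 0 < δ₂ / Real.sqrt N := by
      have : 0 < Real.sqrt N := Real.sqrt_pos.2 hNp
      positivity
    set G := Real.exp (N / (4 * π) * (2 * V) - 2 * ε' * N) with hG'
    have hG0 : 0 < G := Real.exp_pos _
    have hlow : G * (δ₂ / Real.sqrt N) ≤
        k * ‖∫ x in (-b₁)..π, Fi2 A N d d (x + η * Complex.I)‖ := by
      calc G * (δ₂ / Real.sqrt N) ≤ (k * ‖Fi2 A N d d (-b₀ + η * Complex.I)‖) * (δ₂ / Real.sqrt N) :=
            mul_le_mul_of_nonneg_right hmain2 hsq.le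
        _ = k * (‖Fi2 A N d d (-b₀ + η * Complex.I)‖ * (δ₂ / Real.sqrt N)) := by ring
        _ ≤ _ := mul_le_mul_of_nonneg_left h6 hk0.le
    -- E K ≤ G δ₂/(2 √N)
    have hEG : E * K ≤ G * (δ₂ / Real.sqrt N) / 2 := by
      have hexp : E ≤ G * Real.exp (-(ε' * N)) := by
        rw [hE, hG', ← Real.exp_add]
        apply Real.exp_le_exp.2
        have : N / (4 * π) * (2 * (V - δ / 4)) = N / (4 * π) * (2 * V) - δ / (8 * π) * N := by
          field_simp
          ring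
        rw [this]
        have h7 : 4 * ε' ≤ δ / (8 * π) := by
          rw [le_div_iff₀ (by positivity)]
          nlinarith
        have h8 : 4 * ε' * N ≤ δ / (8 * π) * N := mul_le_mul_of_nonneg_right h7 hNp.le
        linarith
      have h9 : Real.exp (-(ε' * N)) * K ≤ δ₂ / Real.sqrt N / 2 := by
        calc Real.exp (-(ε' * N)) * K ≤ (δ₂ / (2 * K) / Real.sqrt N) * K :=
              mul_le_mul_of_nonneg_right h3 hK0.le
          _ = δ₂ / Real.sqrt N / 2 := by
            field_simp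
      calc E * K ≤ (G * Real.exp (-(ε' * N))) * K := mul_le_mul_of_nonneg_right hexp hK0.le
        _ = G * (Real.exp (-(ε' * N)) * K) := by ring
        _ ≤ G * (δ₂ / Real.sqrt N / 2) := mul_le_mul_of_nonneg_left h9 hG0.le
        _ = _ := by ring
    rw [le_div_iff₀ (by positivity)]
    have hfin : G * (δ₂ / Real.sqrt N) / 2 ≤
        ‖path (fun z => ((k : ℝ) : ℂ) * Fi2 A N d d z) h η b₁‖ := by
      linarith
    refine le_trans ?_ hfin
    have h10 : Real.exp (N / (4 * π) * (2 * V) - ε * N) ≤ G * Real.exp (-(ε' * N)) := by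
      rw [hG', ← Real.exp_add]
      apply Real.exp_le_exp.2
      have : 4 * ε' * N ≤ ε * N := mul_le_mul_of_nonneg_right (by linarith) hNp.le
      have : 0 ≤ ε' * N := by positivity
      linarith
    calc Real.exp (N / (4 * π) * (2 * V) - ε * N) * (2 * π) ≤ (G * Real.exp (-(ε' * N))) * (2 * π) :=
          mul_le_mul_of_nonneg_right h10 (by positivity)
      _ = G * (Real.exp (-(ε' * N)) * (2 * π)) := by ring
      _ ≤ G * ((δ₂ / (4 * π) / Real.sqrt N) * (2 * π)) := by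
          apply mul_le_mul_of_nonneg_left _ hG0.le
          exact mul_le_mul_of_nonneg_right h4 (by positivity)
      _ = G * (δ₂ / Real.sqrt N) / 2 := by
          field_simp
          ring
  · intro y hy hy'
    rw [hnorm]
    refine le_trans (h2 d d n hnd (by omega) (by omega) y hy).2 ?_
    have hs1 : Real.sinh y ≤ Real.sinh h := Real.sinh_le_sinh.2 hy'
    apply mul_le_mul hs1 _ (Real.exp_pos _).le hsh
    apply Real.exp_le_exp.2
    have hmy : m * y ≤ m * h := mul_le_mul_of_nonneg_left hy' hm0.le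
    have h7 : (A : ℝ) * N * y / 2 ≤ N / (4 * π) * (2 * (V - δ / 4)) := by
      have e : (A : ℝ) * N * y / 2 = N / (4 * π) * (2 * (2 * π * (m * y))) := by
        rw [hAm]
        field_simp
        ring
      rw [e]
      apply mul_le_mul_of_nonneg_left _ hpN.le
      nlinarith
    linarith
  · intro x hx hx'
    rw [hnorm]
    refine le_trans (hpt x h le_rfl hhη).2 ?_
    apply Real.exp_le_exp.2
    have h7 : hp m α x h ≤ V - δ / 4 := by
      have := (abs_le.1 (hclose x h le_rfl hhη)).2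
      have := w1 x hx hx'
      have := min_le_left (δ / 4) (2 * π * ε')
      linarith
    have := mul_le_mul_of_nonneg_left (show 2 * hp m α x h ≤ 2 * (V - δ / 4) by linarith) hpN.le
    linarith
  · intro y hy hy'
    rw [hnorm]
    refine le_trans (hpt b₁ y hy hy').2 ?_
    apply Real.exp_le_exp.2
    have h7 : hp m α b₁ y ≤ V - δ / 4 := by
      have := (abs_le.1 (hclose b₁ y hy hy')).2
      have := w2 y hy hy'
      have := min_le_left (δ / 4) (2 * π * ε')
      linarith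
    have := mul_le_mul_of_nonneg_left (show 2 * hp m α b₁ y ≤ 2 * (V - δ / 4) by linarith) hpN.le
    linarith
  · intro y hy hy'
    rw [hnorm]
    refine le_trans (h2 d d n hnd (by omega) (by omega) y hy).1 ?_
    have hs1 : Real.sinh y ≤ Real.sinh η := Real.sinh_le_sinh.2 hy'
    apply mul_le_mul hs1 _ (Real.exp_pos _).le hsη
    apply Real.exp_le_exp.2
    linarith

end Pool.Agent.H9.BX
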