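import Pool.Agent.H9.BX.Up
import Pool.Agent.H9.BX.Low
import Pool.Agent.H9.BX.Gr
import Pool.Graph.R_seed8.W719.BX.GeoN

/-!
# The critical value is the maximal volume of an angle structure

Copy of the end of `Pool.Graph.R_seed8.W719.BX.GeoC` with `b < π / 2` instead of `4 ≤ a`.
-/

set_option autoImplicit false

namespace Pool.Agent.H9.BX

open Filter Finset Pool.Agent.W709.VC Pool.Agent.W719.BX
open scoped Real Topology ComplexConjugate

noncomputable section

variable {a : ℕ} {α η b : ℝ}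

lemma crit_Sq (ha : 3 ≤ a) (hbb : b < π / 2) (hC : Crit2 ((a : ℝ) / 2) α b η) : Sq η b ≠ 0 := by
  have h1 := hbb
  intro h
  have h2 : (Sq η b).re = 0 := by rw [h]; rfl
  rw [Sq_re] at h2
  have h3 : 0 < Real.sinh (η / 2) := Real.sinh_pos_iff.2 (by linarith [hC.hη])
  have h4 : 0 < Real.cos (b / 2) :=
    Real.cos_pos_of_mem_Ioo ⟨by linarith [hC.hb, Real.pi_pos], by linarith [hC.hb, Real.pi_pos]⟩
  have := mul_pos h3 h4
  linarith

lemma crit_c0 (hA : S_ALG2) (ha : 3 ≤ a) (hbb : b < π / 2) (hC : Crit2 ((a : ℝ) / 2) α b η) :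
    cs' η b (a / 2) = (Complex.exp (-(α * Complex.I)) - 1) ^ 2 /
      ((Complex.exp (-(α * Complex.I)) + Complex.exp (-(η + b * Complex.I))) *
        (Complex.exp (-(α * Complex.I)) + 1 / Complex.exp (-(η + b * Complex.I)))) := by
  have hs := crit_Sq ha hbb hC
  have hR := crit_R hA hC
  obtain ⟨n1, n2, n3, n4⟩ := crit_ne hC
  rw [cs_form η b _ hs]
  have hR0 := sE_ne η b (a / 2)
  have hY0 := Complex.exp_ne_zero (-(η + b * Complex.I))
  rw [sE_one] at hR ⊢
  generalize Complex.exp (-(α * Complex.I)) = X at *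
  generalize Complex.exp (-(η + b * Complex.I)) = Y at *
  generalize sE η b (a / 2) = R at *
  have hY1 : (1 - Y) ≠ 0 := sub_ne_zero.2 (Ne.symm n3)
  have e1 : (X + Y) * (X + 1 / Y) * Y = (X + Y) * (1 + X * Y) := by field_simp; ring
  have n5 : (X + Y) * (X + 1 / Y) ≠ 0 := by
    intro h
    rw [h, zero_mul] at e1
    exact mul_ne_zero n1 n2 e1.symm
  rw [div_eq_div_iff (mul_ne_zero hR0 (pow_ne_zero _ hY1)) n5]
  apply mul_right_cancel₀ (mul_ne_zero hY0 n1)
  have f1 : (1 + R) * (X + Y) = (X - 1) * (1 - Y) := by linear_combination hR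
  have key : ((1 + R) * (X + Y)) ^ 2 * (1 + X * Y) =
      -((X - 1) ^ 2 * (1 - Y) ^ 2 * (R * (X + Y))) := by
    rw [f1, hR]
    ring
  linear_combination (-((1 + R) ^ 2 * Y * (X + Y))) * e1 - Y * key

lemma crit_c1 (hA : S_ALG2) (ha : 3 ≤ a) (hbb : b < π / 2) (hC : Crit2 ((a : ℝ) / 2) α b η) :
    cs' η b (a / 2 - 1) = (1 + Complex.exp (-(η + b * Complex.I))) ^ 2 /
      ((Complex.exp (-(α * Complex.I)) + Complex.exp (-(η + b * Complex.I))) *
        (1 + Complex.exp (-(α * Complex.I)) * Complex.exp (-(η + b * Complex.I)))) := by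
  have hs := crit_Sq ha hbb hC
  have hR := crit_R hA hC
  obtain ⟨n1, n2, n3, n4⟩ := crit_ne hC
  have hd : sE η b (a / 2) = sE η b (a / 2 - 1) * sE η b 1 := by
    rw [← sE_add]; congr 1; ring
  rw [cs_form η b _ hs]
  have hS0 := sE_ne η b (a / 2 - 1)
  have hY0 := Complex.exp_ne_zero (-(η + b * Complex.I))
  rw [hd, sE_one] at hR
  rw [sE_one]
  generalize Complex.exp (-(α * Complex.I)) = X at *
  generalize Complex.exp (-(η + b * Complex.I)) = Y at *
  generalize sE η b (a / 2 - 1) = S at *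
  have hY1 : (1 - Y) ≠ 0 := sub_ne_zero.2 (Ne.symm n3)
  rw [div_eq_div_iff (mul_ne_zero hS0 (pow_ne_zero _ hY1)) (mul_ne_zero n1 n2)]
  apply mul_right_cancel₀ (mul_ne_zero hY0 n1)
  -- (S Y + Y) (X + Y) = - (1 - Y)(1 + Y)
  have f2 : (Y * (1 + S)) * (X + Y) = -((1 - Y) * (1 + Y)) := by linear_combination hR
  have key : ((Y * (1 + S)) * (X + Y)) ^ 2 * (1 + X * Y) =
      -((1 + Y) ^ 2 * (1 - Y) ^ 2 * (S * Y * (X + Y))) := by
    rw [f2, hR]
    ring
  linear_combination (-1 : ℂ) * key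

theorem hb_of_crit (hA : S_ALG2) (ha : 3 ≤ a) (hbb : b < π / 2) (hC : Crit2 ((a : ℝ) / 2) α b η) : HB a η b := by
  obtain ⟨x1, x2, y1, y2⟩ := crit_facts hC
  obtain ⟨n1, n2, n3, n4⟩ := crit_ne hC
  have hc0 := crit_c0 hA ha hbb hC
  have hc1 := crit_c1 hA ha hbb hC
  have hn := (hA a α b η hC).2
  have hY0 := Complex.exp_ne_zero (-(η + b * Complex.I))
  have e1 : (Complex.exp (-(α * Complex.I)) + 1 / Complex.exp (-(η + b * Complex.I))) *
      Complex.exp (-(η + b * Complex.I)) =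
      (1 + Complex.exp (-(α * Complex.I)) * Complex.exp (-(η + b * Complex.I))) := by
    field_simp
    ring
  have n5 : (Complex.exp (-(α * Complex.I)) + 1 / Complex.exp (-(η + b * Complex.I))) ≠ 0 := by
    intro h
    rw [h, zero_mul] at e1
    exact n2 e1.symm
  refine ⟨by omega, hC.hη, hC.hb, hC.hbm, ?_, ?_, ?_⟩
  · -- imaginary part
    have hX0 := Complex.exp_ne_zero (-(α * Complex.I))
    set D : ℂ := ((Real.cos α + Real.cosh η * Real.cos b : ℝ) : ℂ) +
      ((Real.sinh η * Real.sin b : ℝ) : ℂ) * Complex.I with hD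
    have hcα : Complex.exp (-(α * Complex.I)) + (Complex.exp (-(α * Complex.I)))⁻¹ =
        2 * ((Real.cos α : ℝ) : ℂ) := by
      rw [← Complex.exp_neg, neg_neg, Complex.ofReal_cos, Complex.cos, ← neg_mul]
      ring
    have hcY : Complex.exp (-(η + b * Complex.I)) + (Complex.exp (-(η + b * Complex.I)))⁻¹ =
        2 * (((Real.cosh η * Real.cos b : ℝ) : ℂ) + ((Real.sinh η * Real.sin b : ℝ) : ℂ) *
          Complex.I) := by
      have h1 : Complex.exp (-(η + b * Complex.I)) + (Complex.exp (-(η + b * Complex.I)))⁻¹ =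
          2 * Complex.cosh (η + b * Complex.I) := by
        rw [← Complex.exp_neg, neg_neg, Complex.cosh]
        ring
      rw [h1, Complex.cosh_add, Complex.cosh_mul_I, Complex.sinh_mul_I]
      push_cast
      ring
    have hDne : D ≠ 0 := by
      intro h
      have h1 : D.im = 0 := by rw [h]; rfl
      rw [hD, Complex.add_im, Complex.ofReal_im, Complex.im_ofReal_mul, Complex.I_im] at h1
      have h2 : 0 < Real.sinh η := Real.sinh_pos_iff.2 hC.hη
      have h3 : 0 < Real.sin b := Real.sin_pos_of_pos_of_lt_pi hC.hb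
        (by linarith [hbb, Real.pi_pos])
      have := mul_pos h2 h3
      linarith
    have hc : cs' η b (a / 2) = ((Real.cos α - 1 : ℝ) : ℂ) / D := by
      rw [hc0, div_eq_div_iff (mul_ne_zero n1 n5) hDne]
      have hD2 : 2 * D = (Complex.exp (-(α * Complex.I)) + (Complex.exp (-(α * Complex.I)))⁻¹) +
          (Complex.exp (-(η + b * Complex.I)) + (Complex.exp (-(η + b * Complex.I)))⁻¹) := by
        rw [hcα, hcY, hD]
        push_cast
        ring
      have hc2 : 2 * ((Real.cos α - 1 : ℝ) : ℂ) = (Complex.exp (-(α * Complex.I)) +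
          (Complex.exp (-(α * Complex.I)))⁻¹) - 2 := by
        rw [hcα]
        push_cast
        ring
      generalize Complex.exp (-(α * Complex.I)) = X at *
      generalize Complex.exp (-(η + b * Complex.I)) = Y at *
      have g1 : (X - 1) ^ 2 * (2 * D) = 2 * ((Real.cos α - 1 : ℝ) : ℂ) * ((X + Y) * (X + 1 / Y)) := by
        rw [hD2, hc2]
        field_simp
        ring
      linear_combination g1 / 2
    rw [hc, Complex.div_im]
    have h1 : D.im = Real.sinh η * Real.sin b := by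
      rw [hD, Complex.add_im, Complex.ofReal_im, Complex.im_ofReal_mul, Complex.I_im]
      ring
    rw [Complex.ofReal_im, Complex.ofReal_re, h1, zero_mul, zero_div, zero_sub]
    have h2 : 0 < Real.sinh η := Real.sinh_pos_iff.2 hC.hη
    have h3 : 0 < Real.sin b := Real.sin_pos_of_pos_of_lt_pi hC.hb
      (by linarith [hbb, Real.pi_pos])
    have h4 : 0 < Complex.normSq D := Complex.normSq_pos.2 hDne
    have h5 : Real.cos α < 1 := by
      rw [← Real.cos_zero]
      exact Real.cos_lt_cos_of_nonneg_of_le_pi le_rfl (by linarith [hC.hα2, Real.pi_pos]) hC.hα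
    have h6 : (Real.cos α - 1) * (Real.sinh η * Real.sin b) / Complex.normSq D < 0 := by
      apply div_neg_of_neg_of_pos _ h4
      exact mul_neg_of_neg_of_pos (by linarith) (mul_pos h2 h3)
    linarith
  · rw [hc0, norm_div, norm_mul, norm_pow, hn, ← norm_neg (1 - Complex.exp (-(α * Complex.I))),
      neg_sub, div_self]
    apply pow_ne_zero
    rw [norm_ne_zero_iff, sub_ne_zero]
    exact x2
  · have h1 : 1 - cs' η b (a / 2) = Complex.exp (-(α * Complex.I)) * cs' η b (a / 2 - 1) := by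
      rw [hc0, hc1]
      generalize Complex.exp (-(α * Complex.I)) = X at *
      generalize Complex.exp (-(η + b * Complex.I)) = Y at *
      have e2 : (X + Y) * (X + 1 / Y) = (X + Y) * (1 + X * Y) / Y := by
        field_simp
        ring
      rw [e2]
      field_simp
      ring
    rw [h1, norm_mul, x1, one_mul]

theorem geo_value (hA : S_ALG2) (hT : S_TEL) (ha : 3 ≤ a) (hbb : b < π / 2) (hC : Crit2 ((a : ℝ) / 2) α b η) :
    4 * ∑ r ∈ range a, Dv (cs' η b ((r : ℝ) - a / 2)) = 2 * hp ((a : ℝ) / 2) α b η := by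
  have H := hb_of_crit hA ha hbb hC
  obtain ⟨x1, x2, y1, y2⟩ := crit_facts hC
  obtain ⟨n1, n2, n3, n4⟩ := crit_ne hC
  have ha4 : (3 : ℝ) ≤ a := by exact_mod_cast ha
  obtain ⟨k, hk⟩ : ∃ k, a = k + 1 := ⟨a - 1, by omega⟩
  have hk' : (a : ℝ) = k + 1 := by rw [hk]; push_cast; ring
  have hsum : ∑ r ∈ range a, Dv (cs' η b ((r : ℝ) - a / 2)) =
      Dv (cs' η b (a / 2)) + (Ph η b (a / 2 - 1) - Ph η b (-(a / 2))) := by
    have h1 : ∑ r ∈ range a, Dv (cs' η b ((r : ℝ) - a / 2)) =
        ∑ r ∈ range (k + 1), Dv (cs' η b ((r : ℝ) - a / 2)) := by rw [← hk]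
    rw [h1, Finset.sum_range_succ', add_comm]
    have e0 : ((0 : ℕ) : ℝ) - a / 2 = -(a / 2) := by push_cast; ring
    rw [e0, cs_neg]
    congr 1
    have h2 : ∀ r ∈ range k, Dv (cs' η b (((r + 1 : ℕ) : ℝ) - a / 2)) =
        (fun r : ℕ => Ph η b ((r : ℝ) - a / 2)) (r + 1) -
          (fun r : ℕ => Ph η b ((r : ℝ) - a / 2)) r := by
      intro r hr
      rw [mem_range] at hr
      have hr0 : (0 : ℝ) ≤ r := by positivity
      have hr' : (r : ℝ) + 1 ≤ k := by exact_mod_cast hr
      have t0 : |(((r + 1 : ℕ) : ℝ) - a / 2)| ≤ (a : ℝ) / 2 := by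
        push_cast
        exact abs_le.2 ⟨by linarith, by linarith⟩
      have t1 : |(((r + 1 : ℕ) : ℝ) - a / 2 - 1)| ≤ (a : ℝ) / 2 := by
        push_cast
        exact abs_le.2 ⟨by linarith, by linarith⟩
      have t2 : |(((r + 1 : ℕ) : ℝ) - a / 2 + 1)| ≤ (a : ℝ) / 2 := by
        push_cast
        exact abs_le.2 ⟨by linarith, by linarith⟩
      rw [Dv_Ph hT H.Sq_ne (H.Ck_ne t0) (H.Ck_ne t1) (H.Ck_ne t2)]
      show _ = Ph η b (((r + 1 : ℕ) : ℝ) - a / 2) - Ph η b ((r : ℝ) - a / 2)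
      congr 2
      push_cast
      ring
    rw [sum_congr rfl h2, Finset.sum_range_sub (fun r : ℕ => Ph η b ((r : ℝ) - a / 2)) k]
    show Ph η b ((k : ℝ) - a / 2) - Ph η b (((0 : ℕ) : ℝ) - a / 2) = _
    rw [e0]
    congr 2
    linarith
  have hR := crit_R hA hC
  have hPh : Ph η b (a / 2 - 1) - Ph η b (-(a / 2)) =
      2 * (Dv ((1 - Complex.exp (-(α * Complex.I))) * Complex.exp (-(η + b * Complex.I)) /
        (1 + Complex.exp (-(η + b * Complex.I)))) -
        Dv ((Complex.exp (-(α * Complex.I)) - 1) /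
        (Complex.exp (-(α * Complex.I)) + Complex.exp (-(η + b * Complex.I))))) := by
    rw [sE_one] at hR
    rw [← value_alg x2 n1 n2 (Complex.exp_ne_zero _) n3 n4 (sE_ne η b (a / 2)) hR]
    unfold Ph
    have e1 : sE η b (a / 2 - 1 + 1) = sE η b (a / 2) := by congr 1; ring
    have e2 : sE η b (a / 2 - 1) = sE η b (a / 2) / Complex.exp (-(η + b * Complex.I)) := by
      rw [eq_div_iff (Complex.exp_ne_zero _), ← sE_one, ← sE_add, sub_add_cancel]
    have e3 : sE η b (-(a / 2)) = 1 / sE η b (a / 2) := by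
      rw [eq_div_iff (sE_ne _ _ _), ← sE_add, neg_add_cancel]
      unfold sE
      simp
    have e4 : sE η b (-(a / 2) + 1) = Complex.exp (-(η + b * Complex.I)) / sE η b (a / 2) := by
      rw [sE_add, e3, sE_one]
      ring
    rw [e1, e2, e4, e3, sE_one]
  rw [hsum, hPh, crit_c0 hA ha hbb hC]
  have i2 := Pool.Agent.W540.VC.itwo Pool.Agent.W505.VC.dsym Pool.Agent.W505.VC.five
    (Complex.exp (-(α * Complex.I))) (Complex.exp (-(η + b * Complex.I))) x1 x2 y1 y2
  set J := ∫ τ in (b - α)..(b + α), Real.sinh η / (Real.cosh η + Real.cos τ) with hJ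
  have hb := hC.hb
  have i3 := Pool.Agent.W342.VC.ithree ((π - J / 4) / b) α b η hC.hη hC.hα hC.hb
    (by linarith [hC.hα2, hbb]) (by
      rw [← hJ, div_mul_cancel₀ _ hb.ne']
      ring)
  have hinv : 1 / Complex.exp (-(α * Complex.I)) = Complex.exp (α * Complex.I) := by
    rw [Complex.exp_neg, one_div, inv_inv]
  rw [hinv] at i2
  have hpot : pot ((π - J / 4) / b) α b η = hp ((a : ℝ) / 2) α b η := by
    unfold pot hp
    rw [div_mul_cancel₀ _ hb.ne']
    have h3 := hC.c3
    rw [← hJ] at h3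
    linear_combination (-η) * h3
  rw [hpot] at i3
  rw [← i3, ← i2]
  ring

end

end Pool.Agent.H9.BX
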