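import Pool.Agent.H9.BX.Bd
import Pool.Graph.R_seed8.W557.BX.Lap

set_option autoImplicit false

/-! The pointwise limit at the saddle point, integrand with two products. -/

namespace Pool.Agent.H9.BX
open Filter Finset Pool.Agent.W709.VC Pool.Agent.W708.VC Pool.Agent.W719.BX MeasureTheory
open scoped Real Topology

theorem crit2_sin {A : ℕ} {α b η : ℝ} (h1 : b < π / 2) (hc : Crit2 ((A : ℝ) / 2) α b η) :
    0 < Real.sin b * Real.sinh η := by
  exact mul_pos (Real.sin_pos_of_pos_of_lt_pi hc.hb (by linarith [Real.pi_pos]))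
    (Real.sinh_pos_iff.2 hc.hη)

theorem I1' {A : ℕ} {α b η : ℝ} (hA : b < π / 2) (hc : Crit2 ((A : ℝ) / 2) α b η) :
    Complex.sin (-b + η * Complex.I) * ∫ x in (0:ℝ)..α, wi b η x =
      ((-((A : ℝ) / 2) * η : ℝ) : ℂ) + ((π - (A : ℝ) / 2 * b : ℝ) : ℂ) * Complex.I := by
  have hδ := crit2_sin hA hc
  have hη := hc.hη
  have hP := P_cont hη
  rw [← intervalIntegral.integral_const_mul]
  have h1 : ∀ x, Complex.sin (-b + η * Complex.I) * wi b η x = (1 / 2 : ℂ) * (P η (b + x) + P η (b - x)) :=
    fun x => P_eq hδ hη x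
  simp only [h1]
  have hP1 : Continuous (fun x => P η (b + x)) := hP.comp (by fun_prop)
  have hP2 : Continuous (fun x => P η (b - x)) := hP.comp (by fun_prop)
  rw [intervalIntegral.integral_const_mul, intervalIntegral.integral_add
    (hP1.intervalIntegrable _ _) (hP2.intervalIntegrable _ _),
    intervalIntegral.integral_comp_add_left (fun x => P η x), intervalIntegral.integral_comp_sub_left (fun x => P η x),
    add_comm, add_zero, sub_zero, intervalIntegral.integral_add_adjacent_intervals
    (hP.intervalIntegrable _ _) (hP.intervalIntegrable _ _), P_int hη]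
  have e1 : ell η (b + α) - ell η (b - α) = -2 * ((A : ℝ) / 2) * η := by linarith [hc.c1]
  have e2 : ∫ x in (b - α)..(b + α), Real.sinh η / (Real.cosh η + Real.cos x) =
      2 * (π - (A : ℝ) / 2 * b) := by
    linarith [hc.c3]
  rw [e1, e2]
  push_cast
  ring

/-- pointwise limit for the Laplace method -/
theorem lap {A : ℕ} {α b η : ℝ} (d : ℕ → ℕ) (hA : b < π / 2) (hc : Crit2 ((A : ℝ) / 2) α b η)
    (hd : ∀ N : ℕ, |2 * π * (d N) - α * N| ≤ 2 * π) :
    ∃ c : ℂ, 0 < c.re ∧ ∀ s : ℝ, Tendsto (fun N : ℕ =>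
    Fi2 A N (d N) (d N) (-b + s / (Real.sqrt N : ℝ) + η * Complex.I) /
      Fi2 A N (d N) (d N) (-b + η * Complex.I)) atTop (𝓝 (Complex.exp (-c * s ^ 2))) := by
  have hπ : (π : ℂ) ≠ 0 := by exact_mod_cast Real.pi_ne_zero
  have hδ := crit2_sin hA hc
  have hη := hc.hη
  have hα := hc.hα
  have hI1 := I1' hA hc
  have hb2 := hA
  refine ⟨-(Complex.I * A) / (4 * π) + 2 * ((Real.sin α : ℂ) * wi b η α / (4 * π)), ?_, ?_⟩
  · have h1 : (-(Complex.I * A) / (4 * π) : ℂ).re = 0 := by
      have : (-(Complex.I * A) / (4 * π) : ℂ) = ((-(A : ℝ) / (4 * π) : ℝ) : ℂ) * Complex.I := by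
        push_cast; ring
      rw [this, Complex.re_ofReal_mul, Complex.I_re, mul_zero]
    have h2 : (2 * ((Real.sin α : ℂ) * wi b η α / (4 * π)) : ℂ) =
        ((2 * (Real.sin α / (4 * π)) : ℝ) : ℂ) * wi b η α := by
      push_cast; ring
    rw [Complex.add_re, h1, h2, zero_add, Complex.re_ofReal_mul]
    have hsα : 0 < Real.sin α :=
      Real.sin_pos_of_pos_of_lt_pi hα (by linarith [hc.hα2, Real.pi_pos])
    have hcb : 0 < Real.cos b := Real.cos_pos_of_mem_Ioo ⟨by linarith [hc.hb, Real.pi_pos], hb2⟩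
    have hcα : 0 < Real.cos α := Real.cos_pos_of_mem_Ioo ⟨by linarith [Real.pi_pos], hc.hα2⟩
    have hch : 1 ≤ Real.cosh η := Real.one_le_cosh η
    have hre : 0 < (wi b η α).re := by
      rw [wi, Complex.inv_re]
      refine div_pos ?_ (Complex.normSq_pos.2 (den_ne hδ α))
      rw [cos_psi]
      simp only [Complex.add_re, Complex.ofReal_re, Complex.mul_re, Complex.I_re, mul_zero,
        Complex.ofReal_im, Complex.I_im, mul_one, sub_zero, add_zero]
      nlinarith
    have := Real.pi_pos
    positivity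
  · intro s
    have hX := ((((lim_log hδ α s d hd hα).const_mul 2)).add_const
      (Complex.I * A * s ^ 2 / (4 * π)))
    have hX' := (Complex.continuous_exp.tendsto _).comp hX
    have hsn : Complex.sin (-b + η * Complex.I) ≠ 0 := by
      intro h
      have h2 := congrArg Complex.re h
      rw [sin_psi] at h2
      simp only [Complex.add_re, Complex.ofReal_re, Complex.mul_re, Complex.I_re, mul_zero,
        Complex.ofReal_im, Complex.I_im, mul_one, sub_zero, add_zero, Complex.zero_re] at h2
      have h3 : 0 < Real.sin b :=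
        Real.sin_pos_of_pos_of_lt_pi hc.hb (by linarith [Real.pi_pos])
      have h4 := Real.cosh_pos η
      nlinarith [mul_pos h3 h4]
    have hS : Tendsto (fun N : ℕ => Complex.sin ((-b + η * Complex.I) + (tt s N : ℝ)) /
        Complex.sin (-b + η * Complex.I)) atTop (𝓝 1) := by
      have h1 : Tendsto (fun N : ℕ => (-b + η * Complex.I) + ((tt s N : ℝ) : ℂ)) atTop
          (𝓝 ((-b + η * Complex.I) + ((0:ℝ) : ℂ))) :=
        ((Complex.continuous_ofReal.tendsto _).comp (tt_zero s)).const_add _
      have h2 := ((Complex.continuous_sin.tendsto _).comp h1).div_const (Complex.sin (-b + η * Complex.I))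
      rw [Complex.ofReal_zero, add_zero, div_self hsn] at h2
      exact h2
    have hE0 := E_lim hη (fun _ => -b)
    have hE1 := E_lim hη (fun N => -b + tt s N)
    have hE := (hE0.div hE1 one_ne_zero).pow 2
    rw [div_one, one_pow] at hE
    have hall := (hX'.mul hS).mul hE
    rw [mul_one, mul_one] at hall
    have hsmall : ∀ᶠ N : ℕ in atTop, ‖Dl b η s N‖ * (Real.sin b * Real.sinh η)⁻¹ ≤ 1 / 2 := by
      have := (lim_D b η s).norm.mul_const (Real.sin b * Real.sinh η)⁻¹
      rw [norm_zero, zero_mul] at this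
      exact this.eventually (ge_mem_nhds (by norm_num : (0:ℝ) < 1 / 2))
    have hlim : 2 * (-((s:ℂ) ^ 2 / (4 * π)) * ((Real.sin α : ℂ) * wi b η α)) +
        Complex.I * A * s ^ 2 / (4 * π) =
        -(-(Complex.I * A) / (4 * π) + 2 * ((Real.sin α : ℂ) * wi b η α / (4 * π))) * s ^ 2 := by
      field_simp
      ring
    rw [hlim] at hall
    refine hall.congr' ?_
    filter_upwards [hsmall, eventually_gt_atTop 0] with N hs hN
    have hN' : (0:ℝ) < N := by exact_mod_cast hN
    have hs0 : 0 < Real.sqrt N := Real.sqrt_pos.2 hN'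
    have hsq : Real.sqrt N ^ 2 = N := Real.sq_sqrt hN'.le
    have hNt : (N : ℂ) * (tt s N : ℝ) = ((s * Real.sqrt N : ℝ) : ℂ) := by
      rw [← Complex.ofReal_natCast, ← Complex.ofReal_mul]
      congr 1
      rw [tt]; field_simp; linear_combination (-s) * hsq
    have hNt2 : (N : ℂ) * ((tt s N : ℝ) : ℂ) ^ 2 = (s:ℂ) ^ 2 := by
      rw [← Complex.ofReal_natCast, ← Complex.ofReal_pow, ← Complex.ofReal_mul, ← Complex.ofReal_pow]
      congr 1
      rw [tt, div_pow, hsq]; field_simp
    have hψ : (-b + s / (Real.sqrt N : ℝ) + η * Complex.I : ℂ) = (-b + η * Complex.I) + (tt s N : ℝ) := by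
      rw [tt]; push_cast; ring
    have hψe : (-b + η * Complex.I) + ((tt s N : ℝ) : ℂ) = (((-b + tt s N : ℝ)) : ℂ) + η * Complex.I := by
      push_cast; ring
    rw [hψ, Fi2, Fi2, Fint_eq, Fint_eq]
    have hRR := RR_ratio hδ s N (d N) hs
    have hRn := RR_ne hδ N (d N)
    have hRR' : RR N (d N) ((-b + η * Complex.I) + (tt s N : ℝ)) =
        Complex.exp (∑ j ∈ range (d N), Complex.log (1 + Dl b η s N * wi b η (phi N j))) *
          RR N (d N) (-b + η * Complex.I) := by
      rw [← hRR, div_mul_cancel₀ _ hRn]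
    rw [hRR']
    have hq0 : 1 + Complex.exp (Complex.I * N * ((-b + η * Complex.I) + π)) ≠ 0 := by
      have := one_add_E hη N (-b) hN
      rwa [Complex.ofReal_neg] at this
    have hq1 : 1 + Complex.exp (Complex.I * N * ((-b + η * Complex.I) + (tt s N : ℝ) + π)) ≠ 0 := by
      have := one_add_E hη N (-b + tt s N) hN
      rwa [← hψe] at this
    have hexp : Complex.exp (Complex.I * A * N * ((-b + η * Complex.I) + (tt s N : ℝ)) ^ 2 / (4 * π) +
        Complex.I * N * ((-b + η * Complex.I) + (tt s N : ℝ) + π)) =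
        Complex.exp (2 * (((s * Real.sqrt N : ℝ) : ℂ) / (2 * π) *
          (Complex.sin (-b + η * Complex.I) * ∫ x in (0:ℝ)..α, wi b η x)) + Complex.I * A * s ^ 2 / (4 * π)) *
        Complex.exp (Complex.I * A * N * (-b + η * Complex.I) ^ 2 / (4 * π) +
          Complex.I * N * ((-b + η * Complex.I) + π)) := by
      rw [← Complex.exp_add]
      congr 1
      rw [hI1, ← hNt2, ← hNt]
      push_cast
      field_simp
      ring_nf
      simp only [Complex.I_sq]
      ring
    rw [hexp]
    simp only [Function.comp_apply]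
    have hE0' : (1 + Complex.exp (Complex.I * N * (((-b : ℝ) : ℂ) + η * Complex.I + π))) =
        1 + Complex.exp (Complex.I * N * ((-b + η * Complex.I) + π)) := by rw [Complex.ofReal_neg]
    have hE1' : (1 + Complex.exp (Complex.I * N * (((-b + tt s N : ℝ) : ℂ) + η * Complex.I + π))) =
        1 + Complex.exp (Complex.I * N * ((-b + η * Complex.I) + (tt s N : ℝ) + π)) := by rw [← hψe]
    simp only [Pi.div_apply]
    have hsplit : Complex.exp (2 * ((∑ j ∈ range (d N),
        Complex.log (1 + Dl b η s N * wi b η (phi N j))) + ((s * Real.sqrt N : ℝ) : ℂ) / (2 * π) *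
          (Complex.sin (-b + η * Complex.I) * ∫ x in (0:ℝ)..α, wi b η x)) +
          Complex.I * A * s ^ 2 / (4 * π)) =
        Complex.exp (∑ j ∈ range (d N), Complex.log (1 + Dl b η s N * wi b η (phi N j))) ^ 2 *
        Complex.exp (2 * (((s * Real.sqrt N : ℝ) : ℂ) / (2 * π) *
          (Complex.sin (-b + η * Complex.I) * ∫ x in (0:ℝ)..α, wi b η x)) +
          Complex.I * A * s ^ 2 / (4 * π)) := by
      exact Pool.Agent.W557.BX.exp_split _ _ _
    rw [hE0', hE1', hsplit]
    have hn1 := Complex.exp_ne_zero (Complex.I * A * N * (-b + η * Complex.I) ^ 2 / (4 * π) +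
          Complex.I * N * ((-b + η * Complex.I) + π))
    generalize Complex.exp (Complex.I * A * N * (-b + η * Complex.I) ^ 2 / (4 * π) +
          Complex.I * N * ((-b + η * Complex.I) + π)) = X1 at *
    generalize 1 + Complex.exp (Complex.I * N * ((-b + η * Complex.I) + π)) = X2 at *
    generalize 1 + Complex.exp (Complex.I * N * ((-b + η * Complex.I) + (tt s N : ℝ) + π)) = X3 at *
    generalize RR N (d N) (-b + η * Complex.I) = X4 at *
    generalize Complex.sin ((-b + η * Complex.I) + (tt s N : ℝ)) = X5 at *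
    field_simp

end Pool.Agent.H9.BX
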