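import Pool.Agent.H9.BX.Full

/-!
# The critical value is increasing in `m`
-/

set_option autoImplicit false

namespace Pool.Agent.H9.BX

open Real Set Filter Topology
open Pool.Agent.W709.VC Pool.Agent.W719.BX Pool.Agent.W704.VC.Crit

/-- maximum on the horizontal line, `x ≤ π/2` -/
lemma mxh {m α₀ b₀ η : ℝ} (hC : Crit2 m α₀ b₀ η) (hb : b₀ < π / 2) {α x : ℝ} (hα0 : 0 ≤ α)
    (hα1 : α ≤ π) (hx0 : 0 ≤ x) (hx2 : x ≤ π / 2) : hp m α x η ≤ hp m α₀ b₀ η := by
  have hpi := Real.pi_pos
  have hc1 : 4 * (m / 2) * η + ell η (b₀ + α₀) - ell η (b₀ - α₀) = 0 := by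
    have := hC.c1
    linarith
  have hmax := Pool.Agent.W363.BX.maxg (m / 2) α₀ b₀ η hC.hη hC.hα hC.hb hb
    (by linarith [hC.hα2]) hc1 hC.c2
  rw [Pool.Agent.W363.BX.hp_eq, Pool.Agent.W363.BX.hp_eq]
  rcases le_total (α + x) π with h | h
  · linarith [hmax α x hα0 hx0 hx2 h]
  · have h1 : pot (m / 2) α x η ≤ pot (m / 2) (π - x) x η :=
      Pool.Agent.W363.BX.anti hC.hη hC.hX hx0 hx2 ⟨le_rfl, by linarith⟩
        ⟨by linarith, hα1⟩ (by linarith)
    have h2 := hmax (π - x) x (by linarith) hx0 hx2 (by linarith)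
    linarith

lemma arctan_diff_mono {p q s t : ℝ} (hpq : q ≤ p) (hpq1 : p * q ≤ 1) (hs : 0 ≤ s) (hst : s ≤ t)
    (ht : t ≤ 1) : arctan (s * p) - arctan (s * q) ≤ arctan (t * p) - arctan (t * q) := by
  have hd : ∀ t : ℝ, HasDerivAt (fun t => arctan (t * p) - arctan (t * q))
      (1 / (1 + (t * p) ^ 2) * p - 1 / (1 + (t * q) ^ 2) * q) t := by
    intro t
    have h1 : HasDerivAt (fun t => t * p) p t := by simpa using (hasDerivAt_id t).mul_const p
    have h2 : HasDerivAt (fun t => t * q) q t := by simpa using (hasDerivAt_id t).mul_const q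
    exact h1.arctan.sub h2.arctan
  have hm : MonotoneOn (fun t => arctan (t * p) - arctan (t * q)) (Icc 0 1) := by
    apply monotoneOn_of_deriv_nonneg (convex_Icc _ _)
    · intro x _
      exact (hd x).continuousAt.continuousWithinAt
    · intro x _
      exact (hd x).differentiableAt.differentiableWithinAt
    · intro x hx
      rw [interior_Icc] at hx
      rw [(hd x).deriv]
      have e : 1 / (1 + (x * p) ^ 2) * p - 1 / (1 + (x * q) ^ 2) * q =
          (p - q) * (1 - x ^ 2 * (p * q)) / ((1 + (x * p) ^ 2) * (1 + (x * q) ^ 2)) := by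
        have h1 : 1 + (x * p) ^ 2 ≠ 0 := by positivity
        have h2 : 1 + (x * q) ^ 2 ≠ 0 := by positivity
        field_simp
        ring
      rw [e]
      apply div_nonneg _ (by positivity)
      apply mul_nonneg (by linarith)
      have h3 : x ^ 2 ≤ 1 := by nlinarith [hx.1, hx.2]
      have h4 : 0 ≤ x ^ 2 := sq_nonneg x
      nlinarith
  exact hm ⟨hs, by linarith⟩ ⟨by linarith, ht⟩ hst

lemma th_half_mono {s t : ℝ} (hst : s ≤ t) : th (s / 2) ≤ th (t / 2) :=
  th_strictMono.monotone (by linarith)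

lemma th_half_nonneg {s : ℝ} (hs : 0 ≤ s) : 0 ≤ th (s / 2) := by
  rw [← th_zero]
  exact th_strictMono.monotone (by linarith)

lemma th_half_le (s : ℝ) : th (s / 2) ≤ 1 := by
  unfold th
  rw [div_le_one (cosh_pos _)]
  exact (sinh_lt_cosh _).le

/-- the third function is increasing in the height -/
lemma T_diff_mono {α b s t : ℝ} (hα : 0 < α) (hα2 : α < π / 2) (hb : 0 < b) (hb2 : b < π / 2)
    (hs : 0 ≤ s) (hst : s ≤ t) : T s (b + α) - T s (b - α) ≤ T t (b + α) - T t (b - α) := by
  have hpi := pi_pos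
  have c1 : 0 < cos ((b + α) / 2) := cos_pos_of_mem_Ioo ⟨by linarith, by linarith⟩
  have c2 : 0 < cos ((b - α) / 2) := cos_pos_of_mem_Ioo ⟨by linarith, by linarith⟩
  have e1 : sin ((b + α) / 2) / cos ((b + α) / 2) - sin ((b - α) / 2) / cos ((b - α) / 2) =
      sin α / (cos ((b + α) / 2) * cos ((b - α) / 2)) := by
    rw [div_sub_div _ _ c1.ne' c2.ne', ← sin_sub]
    congr 2
    ring
  have h1 : sin ((b - α) / 2) / cos ((b - α) / 2) ≤ sin ((b + α) / 2) / cos ((b + α) / 2) := by
    have hsα : 0 < sin α := sin_pos_of_pos_of_lt_pi hα (by linarith)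
    have : 0 ≤ sin α / (cos ((b + α) / 2) * cos ((b - α) / 2)) := by positivity
    linarith
  have h2 : sin ((b + α) / 2) / cos ((b + α) / 2) * (sin ((b - α) / 2) / cos ((b - α) / 2)) ≤ 1 := by
    rw [div_mul_div_comm, div_le_one (by positivity)]
    have h3 : 0 < cos b := cos_pos_of_mem_Ioo ⟨by linarith, by linarith⟩
    have h4 := cos_add ((b + α) / 2) ((b - α) / 2)
    rw [show (b + α) / 2 + (b - α) / 2 = b by ring] at h4
    linarith
  have h3 := arctan_diff_mono h1 h2 (th_half_nonneg hs) (th_half_mono hst) (th_half_le t)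
  unfold T
  linarith

lemma hp_dη {m α b η : ℝ} (hα : 0 < α) (hα2 : α < π / 2) (hb : 0 < b) (hb2 : b < π / 2)
    (hη : 0 < η) : HasDerivAt (fun η => hp m α b η)
      (2 * (m * b - π) + (T η (b + α) - T η (b - α))) η := by
  have hpi := pi_pos
  have h1 := Pool.Agent.W973.VcVc.hasDerivAt_Lf (x := b + α) hη
  have h2 := Pool.Agent.W973.VcVc.hasDerivAt_Lf (x := b - α) hη
  have h3 : HasDerivAt (fun η : ℝ => 8 * GapVol.lob (α / 2) + 2 * (m * b - π) * η)
      (2 * (m * b - π)) η := by
    simpa using ((hasDerivAt_id η).const_mul (2 * (m * b - π))).const_add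
      (8 * GapVol.lob (α / 2))
  have h4 := h3.add (h1.sub h2)
  refine h4.congr_deriv ?_
  congr 1
  have hcont : Continuous fun τ : ℝ => sinh η / (cosh η + cos τ) := by
    apply continuous_const.div (continuous_const.add continuous_cos)
    intro τ
    have := one_lt_cosh.mpr hη.ne'
    have := neg_one_le_cos τ
    have : 0 < cosh η + cos τ := by linarith
    exact this.ne'
  rw [intervalIntegral.integral_interval_sub_left (hcont.intervalIntegrable _ _)
    (hcont.intervalIntegrable _ _)]
  exact int_T (by linarith) (by linarith) (by linarith) hη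

/-- the critical height is the minimum for fixed `α`, `b` -/
lemma hp_min {m α b η : ℝ} (hC : Crit2 m α b η) (hb2 : b < π / 2) {η' : ℝ} (hη' : 0 < η') :
    hp m α b η ≤ hp m α b η' := by
  have hpi := pi_pos
  have hη := hC.hη
  have h0 : 2 * (m * b - π) + (T η (b + α) - T η (b - α)) = 0 := by
    have h := hC.c3
    rw [int_T (by linarith [hC.hα2, hC.hb]) (by linarith [hC.hα])
      (by linarith [hC.hα2]) hη] at h
    exact h
  have hd : ∀ t : ℝ, 0 < t → HasDerivAt (fun η => hp m α b η)
      (2 * (m * b - π) + (T t (b + α) - T t (b - α))) t := fun t ht =>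
    hp_dη hC.hα hC.hα2 hC.hb hb2 ht
  rcases le_total η η' with h | h
  · have hm : MonotoneOn (fun η => hp m α b η) (Icc η η') := by
      apply monotoneOn_of_deriv_nonneg (convex_Icc _ _)
      · intro x hx
        exact (hd x (by linarith [hx.1])).continuousAt.continuousWithinAt
      · intro x hx
        rw [interior_Icc] at hx
        exact (hd x (by linarith [hx.1])).differentiableAt.differentiableWithinAt
      · intro x hx
        rw [interior_Icc] at hx
        rw [(hd x (by linarith [hx.1])).deriv]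
        have := T_diff_mono hC.hα hC.hα2 hC.hb hb2 hη.le hx.1.le
        linarith
    exact hm ⟨le_rfl, h⟩ ⟨h, le_rfl⟩ h
  · have hm : AntitoneOn (fun η => hp m α b η) (Icc η' η) := by
      apply antitoneOn_of_deriv_nonpos (convex_Icc _ _)
      · intro x hx
        exact (hd x (by linarith [hx.1])).continuousAt.continuousWithinAt
      · intro x hx
        rw [interior_Icc] at hx
        exact (hd x (by linarith [hx.1])).differentiableAt.differentiableWithinAt
      · intro x hx
        rw [interior_Icc] at hx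
        rw [(hd x (by linarith [hx.1])).deriv]
        have := T_diff_mono (t := η) hC.hα hC.hα2 hC.hb hb2 (by linarith [hx.1] : 0 ≤ x) hx.2.le
        linarith
    exact hm ⟨le_rfl, h⟩ ⟨h, le_rfl⟩ h

/-- the critical value is strictly increasing -/
theorem hp_lt {m m' α b η α' b' η' : ℝ} (hmm : m < m') (hC : Crit2 m α b η) (hb : b < π / 2)
    (hC' : Crit2 m' α' b' η') (hb' : b' < π / 2) : hp m α b η < hp m' α' b' η' := by
  have h1 := hp_min hC hb hC'.hη
  have h2 := mxh hC' hb' hC.hα.le (by linarith [hC.hα2, pi_pos]) hC.hb.le hb.le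
  have h3 : hp m' α b η' = hp m α b η' + 2 * (m' - m) * b * η' := by
    unfold hp
    ring
  have h4 : 0 < 2 * (m' - m) * b * η' := by
    have := hC.hb
    have := hC'.hη
    have : 0 < m' - m := by linarith
    positivity
  linarith

end Pool.Agent.H9.BX
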