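import Pool.Agent.H9.BX.Exist
import Pool.Graph.R_seed8.W363.BX.MXQ

/-!
# The maximum on the horizontal line for `m = 3/2`: the part `π/2 ≤ x ≤ 2π/3`
-/

set_option autoImplicit false

namespace Pool.Agent.H9.BX

open Filter Set GapVol Pool.Agent.W709.VC Pool.Agent.W719.BX Pool.Agent.W402.VC
open Pool.Agent.W704.VC.Crit (cc)
open scoped Real Topology

/-- the facts about `cosh η` and `cos x` used below -/
structure Rg (η x : ℝ) : Prop where
  hη : 0 < η
  hX : Real.cosh η ≤ 31 / 25
  hx1 : π / 2 ≤ x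
  hx2 : x ≤ 2 * π / 3

section
variable {η x : ℝ}

lemma Rg.one (h : Rg η x) : 1 < Real.cosh η := one_lt_cosh h.hη

lemma Rg.C0 (h : Rg η x) : Real.cos x ≤ 0 :=
  Real.cos_nonpos_of_pi_div_two_le_of_le h.hx1 (by linarith [h.hx2, Real.pi_pos])

lemma cos_two_pi_div_three' : Real.cos (2 * π / 3) = -(1 / 2) := by
  rw [show 2 * π / 3 = π - π / 3 by ring, Real.cos_pi_sub, Real.cos_pi_div_three]

lemma Rg.C1 (h : Rg η x) : -(1 / 2) ≤ Real.cos x := by
  rw [← cos_two_pi_div_three']
  exact Real.cos_le_cos_of_nonneg_of_le_pi (by linarith [h.hx1, Real.pi_pos])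
    (by linarith [Real.pi_pos]) h.hx2

lemma Rg.S0 (h : Rg η x) : 0 < Real.sin x :=
  Real.sin_pos_of_pos_of_lt_pi (by linarith [h.hx1, Real.pi_pos])
    (by linarith [h.hx2, Real.pi_pos])

lemma Rg.den (h : Rg η x) : 0 < 1 + Real.cosh η * Real.cos x := by
  have := h.C0
  have := h.C1
  have := h.one
  have := h.hX
  nlinarith

lemma Rg.XC (h : Rg η x) : 0 < Real.cosh η + Real.cos x := by
  have := h.C1
  have := h.one
  linarith

lemma Rg.D2 (h : Rg η x) : Real.cosh η - Real.cos x < 2 := by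
  have := h.C1
  have := h.hX
  linarith

lemma Rg.D0 (h : Rg η x) : 0 < Real.cosh η - Real.cos x := by
  have := h.C0
  have := h.one
  linarith

lemma Rg.a1 (h : Rg η x) : 1 - cc x η = (Real.cosh η + Real.cos x) ^ 2 /
    (2 * (1 + Real.cosh η * Real.cos x)) := by
  have := h.den
  unfold cc
  field_simp
  ring

lemma Rg.a2 (h : Rg η x) : 1 + cc x η = (4 - (Real.cosh η - Real.cos x) ^ 2) /
    (2 * (1 + Real.cosh η * Real.cos x)) := by
  have := h.den
  unfold cc
  field_simp
  ring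

lemma Rg.c1 (h : Rg η x) : cc x η < 1 := by
  have h1 := h.den
  have h2 := h.XC
  have h3 : 0 < 1 - cc x η := by
    rw [h.a1]
    positivity
  linarith

lemma Rg.c0 (h : Rg η x) : -1 < cc x η := by
  have h1 := h.den
  have h2 := h.D0
  have h3 := h.D2
  have h4 : 0 < 4 - (Real.cosh η - Real.cos x) ^ 2 := by nlinarith
  have h3 : 0 < 1 + cc x η := by
    rw [h.a2]
    positivity
  linarith

lemma Rg.cos_eq (h : Rg η x) : Real.cos (Real.arccos (cc x η)) = cc x η :=
  Real.cos_arccos h.c0.le h.c1.le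

lemma Rg.pos (h : Rg η x) : 0 < Real.arccos (cc x η) := Real.arccos_pos.mpr h.c1

lemma Rg.lt_pi (h : Rg η x) : Real.arccos (cc x η) < π := by
  have h1 := Real.arccos_le_pi (cc x η)
  rcases h1.lt_or_eq with h2 | h2
  · exact h2
  · have h3 := h.cos_eq
    rw [h2, Real.cos_pi] at h3
    linarith [h.c0]

end

lemma prod_id {X C S c s : ℝ} (hS : S ^ 2 + C ^ 2 = 1) (hs : s ^ 2 + c ^ 2 = 1) :
    (2 * X + 2 * (C * c - S * s)) * (2 * X + 2 * (C * c + S * s)) =
      4 * (1 - c) ^ 2 + 4 * (X ^ 2 + C ^ 2 - 2 + 2 * c * (1 + X * C)) := by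
  linear_combination (4 * c ^ 2 - 4) * hS + (- 4 * S ^ 2) * hs

lemma dlog {η x α : ℝ} (hη : 0 < η) (h0 : 0 < α) (h1 : α < 2 * π) :
    -4 * Real.log (2 * Real.sin (α / 2)) + ell η (x + α) + ell η (x - α) =
      Real.log (4 * (1 - Real.cos α) ^ 2 + 4 * (Real.cosh η ^ 2 + Real.cos x ^ 2 - 2 +
        2 * Real.cos α * (1 + Real.cosh η * Real.cos x))) - Real.log (4 * (1 - Real.cos α) ^ 2) := by
  have h3 := arg_pos hη (x + α)
  have h4 := arg_pos hη (x - α)
  have hs : 0 < Real.sin (α / 2) := Real.sin_pos_of_pos_of_lt_pi (by linarith) (by linarith)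
  have e1 : ell η (x + α) + ell η (x - α) =
      Real.log ((2 * Real.cosh η + 2 * Real.cos (x + α)) *
        (2 * Real.cosh η + 2 * Real.cos (x - α))) := by
    unfold ell
    rw [Real.log_mul h3.ne' h4.ne']
  have e2 : 4 * Real.log (2 * Real.sin (α / 2)) = Real.log ((2 * Real.sin (α / 2)) ^ 4) := by
    rw [Real.log_pow]
    norm_num
  have e3 : (2 * Real.sin (α / 2)) ^ 4 = 4 * (1 - Real.cos α) ^ 2 := by
    have h3 : Real.cos α = 2 * Real.cos (α / 2) ^ 2 - 1 := by
      rw [← Real.cos_two_mul]; congr 1; ring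
    have h4 := Real.sin_sq_add_cos_sq (α / 2)
    have h5 : 1 - Real.cos α = 2 * Real.sin (α / 2) ^ 2 := by rw [h3]; linarith
    rw [h5]
    ring
  have e4 := prod_id (X := Real.cosh η) (Real.sin_sq_add_cos_sq x) (Real.sin_sq_add_cos_sq α)
  rw [← Real.cos_add, ← Real.cos_sub] at e4
  rw [e4] at e1
  rw [e3] at e2
  linarith

lemma arg4_pos {α : ℝ} (h0 : 0 < α) (h1 : α < 2 * π) : 0 < 4 * (1 - Real.cos α) ^ 2 := by
  have hs : 0 < Real.sin (α / 2) := Real.sin_pos_of_pos_of_lt_pi (by linarith) (by linarith)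
  have h3 : Real.cos α = 2 * Real.cos (α / 2) ^ 2 - 1 := by
    rw [← Real.cos_two_mul]; congr 1; ring
  have h4 := Real.sin_sq_add_cos_sq (α / 2)
  have h5 : 1 - Real.cos α = 2 * Real.sin (α / 2) ^ 2 := by rw [h3]; linarith
  rw [h5]
  positivity

lemma arg5_pos {η x α : ℝ} (hη : 0 < η) :
    0 < 4 * (1 - Real.cos α) ^ 2 + 4 * (Real.cosh η ^ 2 + Real.cos x ^ 2 - 2 +
        2 * Real.cos α * (1 + Real.cosh η * Real.cos x)) := by
  have e4 := prod_id (X := Real.cosh η) (Real.sin_sq_add_cos_sq x) (Real.sin_sq_add_cos_sq α)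
  rw [← e4, ← Real.cos_add, ← Real.cos_sub]
  exact mul_pos (arg_pos hη _) (arg_pos hη _)

/-- the second equation along the curve -/
lemma Rg.c2 {η x : ℝ} (h : Rg η x) : -4 * Real.log (2 * Real.sin (Real.arccos (cc x η) / 2)) +
    ell η (x + Real.arccos (cc x η)) + ell η (x - Real.arccos (cc x η)) = 0 := by
  rw [dlog h.hη h.pos (by linarith [h.lt_pi, Real.pi_pos]), h.cos_eq]
  have h1 : Real.cosh η ^ 2 + Real.cos x ^ 2 - 2 +
      2 * cc x η * (1 + Real.cosh η * Real.cos x) = 0 := by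
    have := h.den
    unfold cc
    field_simp
    ring
  rw [h1, mul_zero, add_zero, sub_self]

lemma pot_dα {m η x α : ℝ} (hη : 0 < η) (h0 : 0 < α) (h1 : α < 2 * π) :
    HasDerivAt (fun α => pot m α x η)
      (-4 * Real.log (2 * Real.sin (α / 2)) + ell η (x + α) + ell η (x - α)) α := by
  have h2 := pot_hasDeriv (m := m) (α₀ := 0) (b₀ := x) (x := 1) (y := 0) (t := α) hη
    (by linarith) (by linarith)
  simp only [mul_one, zero_add, mul_zero, add_zero] at h2
  refine h2.congr_deriv ?_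
  unfold dpot
  ring

lemma pot_cα {m η x : ℝ} (hη : 0 < η) : Continuous (fun α => pot m α x η) :=
  (pot_cont m hη).comp (by fun_prop : Continuous fun α : ℝ => (α, x))

/-- the maximum in `α` -/
lemma Rg.max {m η x : ℝ} (h : Rg η x) {α : ℝ} (h0 : 0 ≤ α) (h1 : α ≤ π) :
    pot m α x η ≤ pot m (Real.arccos (cc x η)) x η := by
  set a := Real.arccos (cc x η) with ha
  have ha0 : 0 < a := h.pos
  have ha1 : a < π := h.lt_pi
  have hpi := Real.pi_pos
  have hcc : Real.cosh η ^ 2 + Real.cos x ^ 2 - 2 +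
      2 * cc x η * (1 + Real.cosh η * Real.cos x) = 0 := by
    have := h.den
    unfold cc
    field_simp
    ring
  have hden := h.den
  rcases le_total α a with h2 | h2
  · have hm : MonotoneOn (fun α => pot m α x η) (Icc 0 a) := by
      apply monotoneOn_of_deriv_nonneg (convex_Icc _ _) (pot_cα h.hη).continuousOn
      · intro t ht
        rw [interior_Icc] at ht
        exact (pot_dα h.hη ht.1 (by linarith [ht.2])).differentiableAt.differentiableWithinAt
      · intro t ht
        rw [interior_Icc] at ht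
        have ht2 : t < 2 * π := by linarith [ht.2]
        rw [(pot_dα h.hη ht.1 ht2).deriv, dlog h.hη ht.1 ht2]
        have hcos : cc x η ≤ Real.cos t := by
          rw [← h.cos_eq]
          exact Real.cos_le_cos_of_nonneg_of_le_pi ht.1.le ha1.le ht.2.le
        have := Real.log_le_log (arg4_pos ht.1 ht2)
          (show 4 * (1 - Real.cos t) ^ 2 ≤ 4 * (1 - Real.cos t) ^ 2 + 4 * (Real.cosh η ^ 2 +
            Real.cos x ^ 2 - 2 + 2 * Real.cos t * (1 + Real.cosh η * Real.cos x)) by nlinarith)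
        linarith
    exact hm ⟨h0, h2⟩ ⟨ha0.le, le_rfl⟩ h2
  · have hm : AntitoneOn (fun α => pot m α x η) (Icc a π) := by
      apply antitoneOn_of_deriv_nonpos (convex_Icc _ _) (pot_cα h.hη).continuousOn
      · intro t ht
        rw [interior_Icc] at ht
        exact (pot_dα h.hη (by linarith [ht.1])
          (by linarith [ht.2])).differentiableAt.differentiableWithinAt
      · intro t ht
        rw [interior_Icc] at ht
        have ht1 : 0 < t := by linarith [ht.1]
        have ht2 : t < 2 * π := by linarith [ht.2]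
        rw [(pot_dα h.hη ht1 ht2).deriv, dlog h.hη ht1 ht2]
        have hcos : Real.cos t ≤ cc x η := by
          rw [← h.cos_eq]
          exact Real.cos_le_cos_of_nonneg_of_le_pi ha0.le ht.2.le ht.1.le
        have := Real.log_le_log (arg5_pos (x := x) (α := t) h.hη)
          (show 4 * (1 - Real.cos t) ^ 2 + 4 * (Real.cosh η ^ 2 +
            Real.cos x ^ 2 - 2 + 2 * Real.cos t * (1 + Real.cosh η * Real.cos x)) ≤
              4 * (1 - Real.cos t) ^ 2 by nlinarith)
        linarith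
    exact hm ⟨le_rfl, ha1.le⟩ ⟨h2, h1⟩ h2

/-- the maximum in `α`, as a function of `x` -/
noncomputable def gx (η x : ℝ) : ℝ := pot (3 / 4) (Real.arccos (cc x η)) x η + 2 * π * η

lemma Rg.dacc {η x : ℝ} (h : Rg η x) :
    ∃ a', HasDerivAt (fun x => Real.arccos (cc x η)) a' x := by
  have h1 : DifferentiableAt ℝ (fun x => cc x η) x := by
    unfold cc
    have : 2 * (1 + Real.cosh η * Real.cos x) ≠ 0 := by
      have := h.den
      positivity
    fun_prop (disch := assumption)
  have h2 := HasDerivAt.comp (h₂ := Real.arccos) x (Real.hasDerivAt_arccos h.c0.ne' h.c1.ne)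
    h1.hasDerivAt
  exact ⟨_, h2⟩

/-- the derivative of the potential at the maximum -/
noncomputable def Fx (η x : ℝ) : ℝ :=
  3 * η + ell η (x + Real.arccos (cc x η)) - ell η (x - Real.arccos (cc x η))

lemma Rg.dg {η x : ℝ} (h : Rg η x) : HasDerivAt (gx η) (Fx η x) x := by
  obtain ⟨a', ha'⟩ := h.dacc
  have hpi := Real.pi_pos
  have h0 := h.pos
  have h1 := h.lt_pi
  have b1 : HasDerivAt (fun t : ℝ => t) 1 x := hasDerivAt_id x
  have l1 : HasDerivAt (fun t => lob ((Real.arccos (cc t η)) / 2))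
      (-Real.log (2 * Real.sin ((Real.arccos (cc x η)) / 2)) * (a' / 2)) x :=
    lob_comp (by linarith) (by linarith) (ha'.div_const 2)
  have l2 : HasDerivAt (fun t => Lf η (t + Real.arccos (cc t η)))
      (ell η (x + Real.arccos (cc x η)) * (1 + a')) x :=
    Lf_comp h.hη (b1.add ha')
  have l3 : HasDerivAt (fun t => Lf η (t - Real.arccos (cc t η)))
      (ell η (x - Real.arccos (cc x η)) * (1 - a')) x :=
    Lf_comp h.hη (b1.sub ha')
  have l4 : HasDerivAt (fun t => 4 * (3 / 4 * t - π) * η) (4 * (3 / 4 * 1) * η) x :=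
    (((b1.const_mul (3 / 4)).sub_const π).const_mul 4).mul_const η
  have := (((l1.const_mul 8).add l4).add (l2.sub l3)).add_const (2 * π * η)
  refine this.congr_deriv ?_
  have hc2 := h.c2
  unfold Fx
  linear_combination a' * hc2

end Pool.Agent.H9.BX
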