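import Pool.Graph.R_seed8.W349.BX.Crit

/-!
# The first two critical point equations for `m = 3/2` and bounds of the height
-/

set_option autoImplicit false

namespace Pool.Agent.H9.BX

open Real Set Filter Topology
open Pool.Agent.W709.VC Pool.Agent.W719.BX Pool.Agent.W704.VC.Crit

lemma cosh_Y (η : ℝ) : cosh η = (exp (η / 2) ^ 2 + (exp (η / 2) ^ 2)⁻¹) / 2 := by
  have h1 : exp (η / 2) ^ 2 = exp η := by
    rw [← exp_nat_mul]
    congr 1
    push_cast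
    ring
  rw [cosh_eq, h1, exp_neg]

lemma Y_pos (η : ℝ) : 0 < exp (η / 2) := exp_pos _

lemma one_le_Y {η : ℝ} (h : 0 ≤ η) : 1 ≤ exp (η / 2) := by
  have := add_one_le_exp (η / 2)
  linarith

/-- `s + 1/s` is increasing on `[1,∞)` -/
lemma add_inv_mono {s t : ℝ} (hs : 1 ≤ s) (ht : s ≤ t) : s + s⁻¹ ≤ t + t⁻¹ := by
  have h0 : 0 < s := by linarith
  have h1 : 0 < t := by linarith
  have h2 : t + t⁻¹ - (s + s⁻¹) = (t - s) * (1 - (s * t)⁻¹) := by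
    field_simp
    ring
  have h3 : (s * t)⁻¹ ≤ 1 := by
    apply inv_le_one_of_one_le₀
    nlinarith
  have h4 : 0 ≤ (t - s) * (1 - (s * t)⁻¹) := mul_nonneg (by linarith) (by linarith)
  linarith

lemma cosh_le_of_Y {η y : ℝ} (h0 : 0 ≤ η) (h : exp (η / 2) ≤ y) :
    cosh η ≤ (y ^ 2 + (y ^ 2)⁻¹) / 2 := by
  rw [cosh_Y]
  have h1 := one_le_Y h0
  have h2 := add_inv_mono (s := exp (η / 2) ^ 2) (t := y ^ 2) (by nlinarith) (by nlinarith)
  linarith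

lemma le_cosh_of_Y {η y : ℝ} (hy : 1 ≤ y) (h : y ≤ exp (η / 2)) :
    (y ^ 2 + (y ^ 2)⁻¹) / 2 ≤ cosh η := by
  rw [cosh_Y]
  have h2 := add_inv_mono (s := y ^ 2) (t := exp (η / 2) ^ 2) (by nlinarith) (by nlinarith)
  linarith

lemma exp_Y (η : ℝ) : exp (3 * η / 2) = exp (η / 2) ^ 3 := by
  rw [← exp_nat_mul]
  congr 1
  push_cast
  ring

/-- the first two equations in explicit form -/
lemma e1_of_Ph {b η : ℝ} (hb0 : 0 < b) (hb : b ≤ π / 2) (hη : 0 < η) (hch : cosh η < √2)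
    (hPh : Ph (3 / 4) b η = 0) :
    exp (3 * η / 2) * (cosh η + cos b) - 2 - cos b * (cosh η - cos b) =
      sin b * √(4 - (cosh η - cos b) ^ 2) := by
  have hc : 0 ≤ cos b := cos_nonneg_of_mem_Icc ⟨by linarith [pi_pos], hb⟩
  have hc1 := cos_le_one b
  have hs : 0 < sin b := sin_pos_of_pos_of_lt_pi hb0 (by linarith [pi_pos])
  have h1 : 1 < cosh η := one_lt_cosh.mpr hη.ne'
  have hs2 : √2 ^ 2 = (2:ℝ) := Real.sq_sqrt (by norm_num)
  have hch2 : cosh η ^ 2 < 2 := by nlinarith [Real.sqrt_nonneg 2]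
  have hD0 := D_nonneg b η
  have hD : D b η < 2 := by
    unfold D
    nlinarith
  set E := exp (3 * η / 2) with hE
  have hE0 : 0 < E := exp_pos _
  set r := √(4 - (cosh η - cos b) ^ 2) with hr
  have hr0 : 0 ≤ r := Real.sqrt_nonneg _
  have hr2 : r ^ 2 = 4 - (cosh η - cos b) ^ 2 := by
    rw [hr]
    apply Real.sq_sqrt
    unfold D at hD hD0
    nlinarith
  have hG : th (2 * (3 / 4) * η) = G b η := by
    unfold Ph at hPh
    linarith
  have hth : th (2 * (3 / 4) * η) = (E ^ 2 - 1) / (E ^ 2 + 1) := by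
    unfold th
    rw [show 2 * (3 / 4) * η = 3 * η / 2 by ring, sinh_eq, cosh_eq, exp_neg, ← hE]
    field_simp
  have hden := den_pos b η
  unfold G at hG
  rw [abs_of_nonneg hc] at hden hG
  unfold D at hden hG
  rw [← hr, hth, div_eq_div_iff (by positivity) hden.ne'] at hG
  set X := cosh η with hX
  set C := cos b with hC
  set S := sin b with hS
  have hSC : S ^ 2 = 1 - C ^ 2 := by
    rw [hS, hC, Real.sin_sq]
  -- `E² (Q₁ - S r) = Q₁ + S r`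
  have hq : E ^ 2 * (X + C) ^ 2 = (2 + C * (X - C) + S * r) ^ 2 := by
    have e1 : (X + C) ^ 2 = (2 + C * (X - C)) ^ 2 - (S * r) ^ 2 := by
      rw [mul_pow, hSC, hr2]
      ring
    rw [e1]
    linear_combination (2 + C * (X - C) + S * r) * hG
  have h5 : 0 ≤ E * (X + C) := by
    have : 0 < X + C := by linarith
    positivity
  have h6 : 0 ≤ 2 + C * (X - C) + S * r := by
    have : 0 ≤ S * r := mul_nonneg hs.le hr0
    linarith
  have h7 : E * (X + C) = 2 + C * (X - C) + S * r := by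
    rw [← mul_pow] at hq
    exact (pow_left_inj₀ h5 h6 two_ne_zero).1 hq
  linarith

/-- monotonicity of the left hand side -/
lemma lhs_mono {E E' X X' C : ℝ} (hE : E ≤ E') (hX : X ≤ X') (hXC : 0 ≤ X + C) (hC : C ≤ E') :
    E * (X + C) - 2 - C * (X - C) ≤ E' * (X' + C) - 2 - C * (X' - C) := by
  nlinarith [mul_nonneg (sub_nonneg.mpr hE) hXC, mul_nonneg (sub_nonneg.mpr hX)
    (sub_nonneg.mpr hC)]

/-- monotonicity of the square root -/
lemma rhs_anti {S X X' C : ℝ} (hS : 0 ≤ S) (hX : X ≤ X') (hXC : C ≤ X) :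
    S * √(4 - (X' - C) ^ 2) ≤ S * √(4 - (X - C) ^ 2) := by
  apply mul_le_mul_of_nonneg_left _ hS
  apply Real.sqrt_le_sqrt
  nlinarith

/-- upper bound of the height -/
lemma Y_lt {b η y : ℝ} (hb0 : 0 < b) (hb : b ≤ π / 2) (hη : 0 < η) (hch : cosh η < √2)
    (hPh : Ph (3 / 4) b η = 0) (hy : 1 ≤ y)
    (h1 : 0 < y ^ 3 * ((y ^ 2 + (y ^ 2)⁻¹) / 2 + cos b) - 2 -
      cos b * ((y ^ 2 + (y ^ 2)⁻¹) / 2 - cos b))
    (h2 : (1 - cos b ^ 2) * (4 - ((y ^ 2 + (y ^ 2)⁻¹) / 2 - cos b) ^ 2) <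
      (y ^ 3 * ((y ^ 2 + (y ^ 2)⁻¹) / 2 + cos b) - 2 -
      cos b * ((y ^ 2 + (y ^ 2)⁻¹) / 2 - cos b)) ^ 2) : exp (η / 2) < y := by
  by_contra hcon
  push Not at hcon
  have h := e1_of_Ph hb0 hb hη hch hPh
  have hc : 0 ≤ cos b := cos_nonneg_of_mem_Icc ⟨by linarith [pi_pos], hb⟩
  have hc1 := cos_le_one b
  have hs : 0 < sin b := sin_pos_of_pos_of_lt_pi hb0 (by linarith [pi_pos])
  have hX := le_cosh_of_Y hy hcon
  have hX1 : 1 ≤ (y ^ 2 + (y ^ 2)⁻¹) / 2 := by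
    have := add_inv_mono (s := 1) (t := y ^ 2) le_rfl (by nlinarith)
    linarith [inv_one (G := ℝ)]
  have hE : y ^ 3 ≤ exp (3 * η / 2) := by
    rw [exp_Y]
    exact pow_le_pow_left₀ (by linarith) hcon 3
  have hE1 : 1 ≤ exp (3 * η / 2) := one_le_exp (by linarith)
  have k1 := lhs_mono hE hX (C := cos b) (by linarith) (by linarith)
  have k2 := rhs_anti hs.le hX (C := cos b) (by linarith)
  rw [h] at k1
  have k3 := k1.trans k2
  have hR : sin b * √(4 - ((y ^ 2 + (y ^ 2)⁻¹) / 2 - cos b) ^ 2) =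
      √((1 - cos b ^ 2) * (4 - ((y ^ 2 + (y ^ 2)⁻¹) / 2 - cos b) ^ 2)) := by
    rw [← Real.sin_sq, Real.sqrt_mul (sq_nonneg _), Real.sqrt_sq hs.le]
  rw [hR] at k3
  have k4 := (Real.sqrt_lt' h1).2 h2
  linarith

/-- lower bound of the height -/
lemma lt_Y {b η y : ℝ} (hb0 : 0 < b) (hb : b ≤ π / 2) (hη : 0 < η) (hch : cosh η < √2)
    (hPh : Ph (3 / 4) b η = 0) (hy : 1 ≤ y)
    (h2 : (y ^ 3 * ((y ^ 2 + (y ^ 2)⁻¹) / 2 + cos b) - 2 -
      cos b * ((y ^ 2 + (y ^ 2)⁻¹) / 2 - cos b)) ^ 2 <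
      (1 - cos b ^ 2) * (4 - ((y ^ 2 + (y ^ 2)⁻¹) / 2 - cos b) ^ 2)) : y < exp (η / 2) := by
  by_contra hcon
  push Not at hcon
  have h := e1_of_Ph hb0 hb hη hch hPh
  have hc : 0 ≤ cos b := cos_nonneg_of_mem_Icc ⟨by linarith [pi_pos], hb⟩
  have hc1 := cos_le_one b
  have hs : 0 < sin b := sin_pos_of_pos_of_lt_pi hb0 (by linarith [pi_pos])
  have hX := cosh_le_of_Y hη.le hcon
  have hX1 : 1 < cosh η := one_lt_cosh.mpr hη.ne'
  have hE : exp (3 * η / 2) ≤ y ^ 3 := by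
    rw [exp_Y]
    exact pow_le_pow_left₀ (exp_pos _).le hcon 3
  have hy3 : 1 ≤ y ^ 3 := one_le_pow₀ hy
  have k1 := lhs_mono hE hX (C := cos b) (by linarith) (by linarith)
  have k2 := rhs_anti hs.le hX (C := cos b) (by linarith)
  rw [h] at k1
  have k3 := k2.trans k1
  have hR : sin b * √(4 - ((y ^ 2 + (y ^ 2)⁻¹) / 2 - cos b) ^ 2) =
      √((1 - cos b ^ 2) * (4 - ((y ^ 2 + (y ^ 2)⁻¹) / 2 - cos b) ^ 2)) := by
    rw [← Real.sin_sq, Real.sqrt_mul (sq_nonneg _), Real.sqrt_sq hs.le]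
  rw [hR] at k3
  have k4 := Real.lt_sqrt_of_sq_lt h2
  linarith

/-- `η` is bounded above when `cos b ≥ 3/20` -/
lemma Y_hi {b η : ℝ} (hb0 : 0 < b) (hb : b ≤ π / 2) (hη : 0 < η) (hch : cosh η < √2)
    (hPh : Ph (3 / 4) b η = 0) (hc : 3 / 20 ≤ cos b) : exp (η / 2) < 1403 / 1000 := by
  have hc1 := cos_le_one b
  apply Y_lt hb0 hb hη hch hPh (by norm_num)
  · norm_num
    nlinarith
  · norm_num
    nlinarith [mul_nonneg (sub_nonneg.mpr hc) (sq_nonneg (cos b)), sq_nonneg (cos b),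
      mul_nonneg (sub_nonneg.mpr hc) (sub_nonneg.mpr hc)]

/-- `η` is bounded below when `cos b ≤ √2/2` -/
lemma Y_lo {b η : ℝ} (hb0 : 0 < b) (hb : b ≤ π / 2) (hη : 0 < η) (hch : cosh η < √2)
    (hPh : Ph (3 / 4) b η = 0) (hc : cos b ^ 2 ≤ 1 / 2) : 2 < exp (3 * η / 2) := by
  have hc0 : 0 ≤ cos b := cos_nonneg_of_mem_Icc ⟨by linarith [pi_pos], hb⟩
  have h : 63 / 50 < exp (η / 2) := by
    apply lt_Y hb0 hb hη hch hPh (by norm_num)
    norm_num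
    have h3 : cos b ^ 3 ≤ cos b / 2 := by nlinarith
    have h4 : cos b < 71 / 100 := by nlinarith
    nlinarith [h3, hc, hc0, h4]
  rw [exp_Y]
  have h5 : (63 / 50 : ℝ) ^ 3 < exp (η / 2) ^ 3 := pow_lt_pow_left₀ h (by norm_num) (by norm_num)
  have h6 : (2 : ℝ) < (63 / 50) ^ 3 := by norm_num
  linarith

/-- `η` at `cos b = 3/20` -/
lemma Y_mid {b η : ℝ} (hb0 : 0 < b) (hb : b ≤ π / 2) (hη : 0 < η) (hch : cosh η < √2)
    (hPh : Ph (3 / 4) b η = 0) (hc : cos b = 3 / 20) : 7 / 5 < exp (η / 2) := by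
  apply lt_Y hb0 hb hη hch hPh (by norm_num)
  rw [hc]
  norm_num

end Pool.Agent.H9.BX
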