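import Pool.Agent.H9.BX.Bd
import Pool.Graph.R_seed8.W376.BX.Up

/-! Upper bound for the entries. -/

set_option autoImplicit false

namespace Pool.Agent.H9.BX

open Filter Finset EvenVol Pool.Agent.W709.VC Pool.Agent.W719.BX Pool.Agent.W376.BX
open scoped Real Topology

/-- upper bound of the entries -/
theorem up (hP : S_PATH2) (hV : S_VERT2) (hB : S_PB2) (hS : S_SIMP) {A : ℕ} (hA : 3 ≤ A)
    {α₀ b₀ η : ℝ} (hCr : Crit2 ((A : ℝ) / 2) α₀ b₀ η) (hC : Bd ((A : ℝ) / 2) α₀ b₀ η)
    {ε : ℝ} (hε : 0 < ε) : ∀ᶠ N : ℕ in atTop, ∀ k n : ℕ, k ≤ n → n < N →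
    TT A N k n ≤ Real.exp (N / (4 * π) * (2 * hp ((A : ℝ) / 2) α₀ b₀ η) + ε * N) := by
  have hpi := Real.pi_pos
  have hA' : (3 : ℝ) ≤ A := by exact_mod_cast hA
  set m : ℝ := (A : ℝ) / 2 with hm
  have hm2 : 3 / 2 ≤ m := by rw [hm]; linarith
  have hm0 : 0 < m := by linarith
  obtain ⟨hB1, hB2⟩ := hC
  have hlob := lob6_pos
  set V := hp m α₀ b₀ η with hVd
  have hV0 : 0 ≤ V := by linarith
  have hη := hCr.hη
  set h : ℝ := min η (ε / (4 * (m + m + 2))) with hhd
  have hh : 0 < h := lt_min hη (by positivity)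
  have hhη : h ≤ η := min_le_left _ _
  have hhε : h * (4 * (m + m + 2)) ≤ ε := by
    have := min_le_right η (ε / (4 * (m + m + 2)))
    rw [← hhd, le_div_iff₀ (by positivity)] at this
    exact this
  have hmh : 0 < m * h := by positivity
  set K : ℝ := (Real.sinh h * h + 1 * (2 * π) + 1 * η + 1 * (2 * π) + Real.sinh η * η) / (2 * π)
    with hK
  have hsh : 0 ≤ Real.sinh h := Real.sinh_nonneg_iff.2 hh.le
  have hsη : 0 ≤ Real.sinh η := Real.sinh_nonneg_iff.2 hη.le
  have e1 := hB A h η (ε / 4) hh (by positivity)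
  have e2 := hV A (ε / 4) (by positivity)
  have e3 := hS A ε hε
  have e4 : ∀ᶠ N : ℕ in atTop, K ≤ Real.exp (ε / 2 * N) := by
    have : Tendsto (fun N : ℕ => Real.exp (ε / 2 * (N : ℝ))) atTop atTop :=
      Real.tendsto_exp_atTop.comp
        (Tendsto.const_mul_atTop (by positivity) tendsto_natCast_atTop_atTop)
    exact this.eventually_ge_atTop K
  filter_upwards [e1, e2, e3, e4, eventually_ge_atTop 2] with N h1 h2 h3 h4 hN2 k n hkn hn
  have hNp : (0 : ℝ) < N := by
    have : 0 < N := by omega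
    exact_mod_cast this
  by_cases hs : 2 * n + 1 < N ∨ N < 2 * k + 1
  · refine le_trans (h3 k n hkn hn hs) (Real.exp_le_exp.2 ?_)
    have h5 : N / (4 * π) * (16 * GapVol.lob (π / 6)) ≤ N / (4 * π) * (2 * V) := by
      apply mul_le_mul_of_nonneg_left _ (by positivity)
      linarith
    linarith
  · push Not at hs
    obtain ⟨hs1, hs2⟩ := hs
    obtain ⟨d, hd⟩ : ∃ d, n + d + 1 = N := ⟨N - 1 - n, by omega⟩
    have hang : ∀ j : ℕ, 2 * j ≤ N → 0 ≤ 2 * π * (j : ℝ) / N ∧ 2 * π * (j : ℝ) / N ≤ π := by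
      intro j hj
      refine ⟨by positivity, ?_⟩
      rw [div_le_iff₀ hNp]
      have : 2 * (j : ℝ) ≤ N := by exact_mod_cast hj
      nlinarith
    have hd2 : 2 * d ≤ N := by omega
    have hk2 : 2 * k ≤ N := by omega
    obtain ⟨hα0, hαπ⟩ := hang d hd2
    obtain ⟨hβ0, hβπ⟩ := hang k hk2
    set α : ℝ := 2 * π * d / N with hα
    set β : ℝ := 2 * π * k / N with hβ
    obtain ⟨a1, a2, a3⟩ := hB2 α hα0 hαπ
    obtain ⟨c1, c2, c3⟩ := hB2 β hβ0 hβπ
    set b := π / m with hb
    have hpm : 0 < b := by positivity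
    have hbπ : b ≤ π := by
      rw [hb, div_le_iff₀ hm0]
      nlinarith
    rw [TT_path hP A hN2 hd hh hhη (b := b) (by rw [abs_of_nonneg hpm.le]; exact hbπ)]
    set E := Real.exp (N / (4 * π) * (2 * V) + ε / 2 * N) with hE
    have hE0 : 0 < E := Real.exp_pos _
    set c : ℝ := (‖brf (v0 N) n‖ / ‖brf (v0 N) k‖) ^ 2 with hc
    have hc0 : 0 ≤ c := by positivity
    have hnorm : ∀ z : ℂ, ‖(c : ℂ) * Fi2 A N k d z‖ = c * ‖Fi2 A N k d z‖ := by
      intro z
      rw [norm_mul, Complex.norm_real, Real.norm_eq_abs, abs_of_nonneg hc0]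
    have hVN : 0 ≤ N / (4 * π) * (2 * V) := by positivity
    have hAm : (A : ℝ) = 2 * m := by rw [hm]; ring
    -- the general bound off the real axis
    have hpb : ∀ x y G : ℝ, h ≤ y → y ≤ η → hp m α x y ≤ V + G → hp m β x y ≤ V + G →
        G ≤ 2 * π * m * h → c * ‖Fi2 A N k d (-x + y * Complex.I)‖ ≤ E := by
      intro x y G hy hy' hx1 hx2 hG
      have h5 := h1 k d n hd hkn x y hy hy'
      have h6 := (abs_le.1 h5).2
      apply le_exp_of_log (by positivity)
      have h7 : N / (4 * π) * (hp m α x y + hp m β x y) ≤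
          N / (4 * π) * (2 * V + 2 * (2 * π * m * h)) := by
        apply mul_le_mul_of_nonneg_left _ (by positivity)
        linarith
      have h8 : N / (4 * π) * (2 * V + 2 * (2 * π * m * h)) =
          N / (4 * π) * (2 * V) + m * h * N := by
        field_simp
        ring
      have h9 : m * h ≤ ε / 4 := by nlinarith
      have h10 : m * h * N ≤ ε / 4 * N := mul_le_mul_of_nonneg_right h9 hNp.le
      linarith
    have hG0 : (0 : ℝ) ≤ 2 * π * m * h := by positivity
    have key := path_le (f := fun z => (c : ℂ) * Fi2 A N k d z) hh.le hhη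
      (b := b) (by linarith) hbπ (B1 := Real.sinh h * E) (B2 := E) (B3 := E) (B4 := E)
      (B5 := Real.sinh η * E) ?_ ?_ ?_ ?_ ?_
    · rw [div_le_iff₀ (by positivity)]
      refine le_trans key ?_
      have hsplit : Real.exp (N / (4 * π) * (2 * V) + ε * N) = E * Real.exp (ε / 2 * N) := by
        rw [hE, ← Real.exp_add]
        congr 1
        ring
      rw [hsplit]
      have hfin : Real.sinh h * E * h + E * (π - b) + E * (η - h) + E * (π + b) +
          Real.sinh η * E * η ≤ E * (K * (2 * π)) := by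
        rw [hK, div_mul_cancel₀ _ (by positivity)]
        have i1 : E * (π - b) ≤ E * (2 * π) := mul_le_mul_of_nonneg_left (by linarith) hE0.le
        have i2 : E * (η - h) ≤ E * η := mul_le_mul_of_nonneg_left (by linarith) hE0.le
        have i3 : E * (π + b) ≤ E * (2 * π) := mul_le_mul_of_nonneg_left (by linarith) hE0.le
        linarith
      refine le_trans hfin ?_
      have : K * (2 * π) ≤ Real.exp (ε / 2 * N) * (2 * π) :=
        mul_le_mul_of_nonneg_right h4 (by positivity)
      calc E * (K * (2 * π)) ≤ E * (Real.exp (ε / 2 * N) * (2 * π)) :=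
            mul_le_mul_of_nonneg_left this hE0.le
        _ = _ := by ring
    · intro y hy hy'
      rw [hnorm]
      refine le_trans (h2 k d n hd hk2 hd2 y hy).2 ?_
      have hs1 : Real.sinh y ≤ Real.sinh h := Real.sinh_le_sinh.2 hy'
      have hs0 : 0 ≤ Real.sinh y := Real.sinh_nonneg_iff.2 hy
      apply mul_le_mul hs1 _ (Real.exp_pos _).le hsh
      apply Real.exp_le_exp.2
      have : m * y ≤ m * h := mul_le_mul_of_nonneg_left hy' hm0.le
      have h5 : (A : ℝ) * N * y / 2 ≤ ε / 4 * N := by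
        rw [hAm]
        have : 2 * m * N * y / 2 = m * y * N := by ring
        rw [this]
        apply mul_le_mul_of_nonneg_right _ hNp.le
        nlinarith
      linarith
    · intro x hx hx'
      rw [hnorm]
      refine hpb x h (2 * π * m * h) le_rfl hhη ?_ ?_ le_rfl
      · have h5 := a3 h x hh hhη hx hx'
        have h6 := a1 b (by linarith) le_rfl
        linarith
      · have h5 := c3 h x hh hhη hx hx'
        have h6 := c1 b (by linarith) le_rfl
        linarith
    · intro y hy hy'
      rw [hnorm]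
      refine hpb b y 0 hy hy' ?_ ?_ hG0
      · have h5 := a2 y (by linarith) hy'
        have h6 := a1 b (by linarith) le_rfl
        linarith
      · have h5 := c2 y (by linarith) hy'
        have h6 := c1 b (by linarith) le_rfl
        linarith
    · intro x hx hx'
      rw [hnorm]
      refine hpb x η 0 hhη le_rfl ?_ ?_ hG0
      · have := a1 x hx hx'
        linarith
      · have := c1 x hx hx'
        linarith
    · intro y hy hy'
      rw [hnorm]
      refine le_trans (h2 k d n hd hk2 hd2 y hy).1 ?_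
      have hs1 : Real.sinh y ≤ Real.sinh η := Real.sinh_le_sinh.2 hy'
      have hs0 : 0 ≤ Real.sinh y := Real.sinh_nonneg_iff.2 hy
      apply mul_le_mul hs1 _ (Real.exp_pos _).le hsη
      apply Real.exp_le_exp.2
      have : 0 ≤ ε / 4 * N := by positivity
      linarith

end Pool.Agent.H9.BX
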